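import Mathlib

/-!
# Linear algebra for the lower bound for the degree of a Lie identity of `sl_n`
-/

set_option autoImplicit false

namespace Pool.Agent.Helper22.LB

open Finset

variable {K : Type*} [Field K]

section AB

variable {V : Type*} [Fintype V] [DecidableEq V]

theorem ab_zero [CharZero K] (hN : 6 ≤ Fintype.card V) (α β : V → V → V → K)
    (hα : ∀ a b x, α b a x = - α a b x) (hβ : ∀ a b x, β b a x = - β a b x)
    (hα0 : ∀ a b, α a b a = 0) (hβ0 : ∀ a b, β a b a = 0)
    (hα1 : ∀ a x, ∑ b, α a b x = 0) (hβ1 : ∀ a x, ∑ b, β a b x = 0)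
    (hα2 : ∀ a b, ∑ x, α a b x = 0) (hβ2 : ∀ a b, ∑ x, β a b x = 0)
    (h3 : ∀ a b c d, a ≠ b → a ≠ c → a ≠ d → b ≠ c → b ≠ d → c ≠ d →
      α a b c - α a b d = β c d b - β c d a) :
    ∀ a b c, α a b c = 0 ∧ β a b c = 0 := by
  have hα0' : ∀ a b, α a b b = 0 := fun a b => by rw [hα b a b, hα0, neg_zero]
  have hβ0' : ∀ a b, β a b b = 0 := fun a b => by rw [hβ b a b, hβ0, neg_zero]
  have hαd : ∀ a x, α a a x = 0 := fun a x => by
    have h := hα a a x
    have : (2 : K) * α a a x = 0 := by linear_combination h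
    simpa using this
  have hβd : ∀ a x, β a a x = 0 := fun a x => by
    have h := hβ a a x
    have : (2 : K) * β a a x = 0 := by linear_combination h
    simpa using this
  set N : K := (Fintype.card V : K) with hNdef
  have key1 : ∀ a b c, a ≠ b → a ≠ c → b ≠ c → (N - 2) * α a b c = β a c b + β c b a := by
    intro a b c hab hac hbc
    have hF : ∀ d, α a b c - α a b d - β c d b + β c d a =
        (if d = a then (α a b c - β c a b) else 0) + (if d = b then (α a b c + β c b a) else 0) := by
      intro d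
      by_cases hda : d = a
      · subst hda
        rw [if_pos rfl, if_neg hab, hα0, hβ0']; ring
      · by_cases hdb : d = b
        · subst hdb
          rw [if_neg hda, if_pos rfl, hα0', hβ0']; ring
        · rw [if_neg hda, if_neg hdb]
          by_cases hdc : d = c
          · subst hdc
            rw [hβd, hβd]; ring
          · have := h3 a b c d hab hac (Ne.symm hda) hbc (Ne.symm hdb) (Ne.symm hdc)
            linear_combination this
    have hS : ∑ d, (α a b c - α a b d - β c d b + β c d a) = (α a b c - β c a b) + (α a b c + β c b a) := by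
      rw [Finset.sum_congr rfl (fun d _ => hF d), Finset.sum_add_distrib, Finset.sum_ite_eq' univ a,
        Finset.sum_ite_eq' univ b]
      simp
    rw [Finset.sum_add_distrib, Finset.sum_sub_distrib, Finset.sum_sub_distrib, hα2, hβ1, hβ1,
      Finset.sum_const, Finset.card_univ, nsmul_eq_mul, ← hNdef] at hS
    have h4 := hβ a c b
    linear_combination hS - h4
  have key2 : ∀ a c d, a ≠ c → a ≠ d → c ≠ d → (N - 2) * β c d a = α a d c + α c a d := by
    intro a c d hac had hcd
    have hG : ∀ b, α a b c - α a b d - β c d b + β c d a =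
        (if b = c then (- α a c d + β c d a) else 0) + (if b = d then (α a d c + β c d a) else 0) := by
      intro b
      by_cases hbc : b = c
      · subst hbc
        rw [if_pos rfl, if_neg hcd, hα0', hβ0]; ring
      · by_cases hbd : b = d
        · subst hbd
          rw [if_neg hbc, if_pos rfl, hα0', hβ0']; ring
        · rw [if_neg hbc, if_neg hbd]
          by_cases hba : b = a
          · subst hba
            rw [hαd, hαd]; ring
          · have := h3 a b c d (Ne.symm hba) hac had hbc hbd hcd
            linear_combination this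
    have hS : ∑ b, (α a b c - α a b d - β c d b + β c d a) =
        (- α a c d + β c d a) + (α a d c + β c d a) := by
      rw [Finset.sum_congr rfl (fun b _ => hG b), Finset.sum_add_distrib, Finset.sum_ite_eq' univ c,
        Finset.sum_ite_eq' univ d]
      simp
    rw [Finset.sum_add_distrib, Finset.sum_sub_distrib, Finset.sum_sub_distrib, hα1, hα1, hβ2,
      Finset.sum_const, Finset.card_univ, nsmul_eq_mul, ← hNdef] at hS
    have h4 := hα a c d
    linear_combination hS - h4
  have hN6 : ∀ t : ℕ, t ≤ 5 → N - (t : K) ≠ 0 := by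
    intro t ht h
    rw [sub_eq_zero, hNdef] at h
    have h' : Fintype.card V = t := by exact_mod_cast h
    omega
  have hN2 : N - 2 ≠ 0 := by simpa using hN6 2 (by norm_num)
  have hN3 : N - 3 ≠ 0 := by simpa using hN6 3 (by norm_num)
  have hN4 : N - 4 ≠ 0 := by simpa using hN6 4 (by norm_num)
  have hN1 : N - 1 ≠ 0 := by simpa using hN6 1 (by norm_num)
  have hN0 : N ≠ 0 := by simpa using hN6 0 (by norm_num)
  have key3 : ∀ a b c, a ≠ b → a ≠ c → b ≠ c → α a b c = 0 := by
    intro a b c hab hac hbc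
    -- (M^2-2) α_ab(c) = α_bc(a) + α_ca(b)
    have h5 : ∀ a b c, a ≠ b → a ≠ c → b ≠ c →
        ((N - 2) ^ 2 - 2) * α a b c = α b c a + α c a b := by
      intro a b c hab hac hbc
      have e1 := key1 a b c hab hac hbc
      have e2 := key2 b a c (Ne.symm hab) hbc hac
      have e3 := key2 a c b hac hab (Ne.symm hbc)
      -- e2 : (N-2) β a c b = α b c a + α a b c ; e3 : (N-2) β c b a = α a b c + α c a b
      linear_combination (N - 2) * e1 + e2 + e3
    have s1 := h5 a b c hab hac hbc
    have s2 := h5 b c a hbc (Ne.symm hab) (Ne.symm hac)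
    have s3 := h5 c a b (Ne.symm hac) (Ne.symm hbc) hab
    have hsum : (N * (N - 4)) * (α a b c + α b c a + α c a b) = 0 := by
      linear_combination s1 + s2 + s3
    have hS0 : α a b c + α b c a + α c a b = 0 := by
      rcases mul_eq_zero.mp hsum with h | h
      · exact absurd h (mul_ne_zero hN0 hN4)
      · exact h
    have hfin : ((N - 1) * (N - 3)) * α a b c = 0 := by
      linear_combination s1 + hS0
    rcases mul_eq_zero.mp hfin with h | h
    · exact absurd h (mul_ne_zero hN1 hN3)
    · exact h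
  have key4 : ∀ a b c, α a b c = 0 := by
    intro a b c
    by_cases hab : a = b
    · subst hab; exact hαd a c
    by_cases hac : a = c
    · subst hac; exact hα0 a b
    by_cases hbc : b = c
    · subst hbc; exact hα0' a b
    exact key3 a b c hab hac hbc
  intro a b c
  refine ⟨key4 a b c, ?_⟩
  by_cases hab : a = b
  · subst hab; exact hβd a c
  by_cases hac : a = c
  · subst hac; exact hβ0 a b
  by_cases hbc : b = c
  · subst hbc; exact hβ0' a b
  have h := key2 c a b (Ne.symm hac) (Ne.symm hbc) hab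
  rw [key4, key4, add_zero] at h
  rcases mul_eq_zero.mp h with h | h
  · exact absurd h hN2
  · exact h

end AB

section OffDiag

variable {V : Type*} [DecidableEq V]

theorem offdiag (S : Finset V) (hS : 4 ≤ S.card) (E : V → V → K)
    (hE : ∀ p ∈ S, ∀ p' ∈ S, ∀ q ∈ S, ∀ q' ∈ S, p ≠ p' → q ≠ q' → p ≠ q → p ≠ q' → p' ≠ q →
      p' ≠ q' → E p q - E p' q - E p q' + E p' q' = 0) :
    ∃ α β : V → K, ∀ p ∈ S, ∀ q ∈ S, p ≠ q → E p q = α p + β q := by
  have hex : ∀ T : Finset V, T.card ≤ 3 → ∃ x ∈ S, x ∉ T := by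
    intro T hT
    by_contra h
    push Not at h
    have : S.card ≤ T.card := Finset.card_le_card h
    omega
  obtain ⟨o, ho, -⟩ := hex ∅ (by simp)
  obtain ⟨o2, ho2, ho2'⟩ := hex {o} (by simp)
  have ho2o : o2 ≠ o := by simpa using ho2'
  have hc : ∀ p, ∃ x ∈ S, x ≠ p ∧ x ≠ o := by
    intro p
    obtain ⟨x, hx, hx'⟩ := hex {p, o} (le_trans (Finset.card_le_two) (by norm_num))
    exact ⟨x, hx, by simp at hx'; tauto, by simp at hx'; tauto⟩
  choose c hcS hcp hco using hc
  set α : V → K := fun p => E p (c p) - E o (c p) with hαdef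
  have hα : ∀ p ∈ S, ∀ q ∈ S, q ≠ p → q ≠ o → α p = E p q - E o q := by
    intro p hp q hq hqp hqo
    by_cases hpo : p = o
    · subst hpo; simp [hαdef]
    by_cases hqc : q = c p
    · rw [hqc]
    have := hE p hp o ho (c p) (hcS p) q hq hpo (Ne.symm hqc) (Ne.symm (hcp p)) (Ne.symm hqp)
      (Ne.symm (hco p)) (Ne.symm hqo)
    simp only [hαdef]
    linear_combination this
  refine ⟨α, fun q => if q = o then E o2 o - α o2 else E o q, ?_⟩
  intro p hp q hq hpq
  by_cases hqo : q = o
  · subst hqo
    simp only [if_true]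
    by_cases hpo2 : p = o2
    · rw [hpo2]; ring
    obtain ⟨x, hx, hx'⟩ := hex {q, o2, p} (Finset.card_le_three)
    simp only [mem_insert, mem_singleton, not_or] at hx'
    obtain ⟨h1, h2, h3⟩ := hx'
    have e1 := hα p hp x hx h3 h1
    have e2 := hα o2 ho2 x hx h2 h1
    have e3 := hE p hp o2 ho2 x hx q hq hpo2 h1 (Ne.symm h3) hpq (Ne.symm h2) ho2o
    rw [e1, e2]
    linear_combination -e3
  · simp only [if_neg hqo]
    rw [hα p hp q hq (Ne.symm hpq) hqo]
    ring

theorem offdiag_norm [CharZero K] (S : Finset V) (hS : 4 ≤ S.card) (E : V → V → K)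
    (hE : ∀ p ∈ S, ∀ p' ∈ S, ∀ q ∈ S, ∀ q' ∈ S, p ≠ p' → q ≠ q' → p ≠ q → p ≠ q' → p' ≠ q →
      p' ≠ q' → E p q - E p' q - E p q' + E p' q' = 0)
    (hd : ∀ p, E p p = 0) (hT : ∑ p ∈ S, ∑ q ∈ S, E p q = 0) :
    ∀ p ∈ S, ∀ q ∈ S, p ≠ q →
      (((S.card : K) - 1) ^ 2 - 1) * E p q =
        (((S.card : K) - 1) * (∑ x ∈ S, E p x) + ∑ x ∈ S, E x p) +
        (((S.card : K) - 1) * (∑ x ∈ S, E x q) + ∑ x ∈ S, E q x) := by
  obtain ⟨α, β, hαβ⟩ := offdiag S hS E hE
  set M : K := (S.card : K) with hM
  have hrow : ∀ p ∈ S, ∑ x ∈ S, E p x = M * α p - α p + ∑ x ∈ S, β x - β p := by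
    intro p hp
    have h1 : ∀ x ∈ S, E p x = (α p + β x) - (if x = p then α p + β p else 0) := by
      intro x hx
      by_cases hxp : x = p
      · subst hxp; rw [if_pos rfl, hd]; ring
      · rw [if_neg hxp, hαβ p hp x hx (Ne.symm hxp)]; ring
    rw [Finset.sum_congr rfl h1, Finset.sum_sub_distrib, Finset.sum_add_distrib,
      Finset.sum_ite_eq' S p, if_pos hp, Finset.sum_const, nsmul_eq_mul, ← hM]
    ring
  have hcol : ∀ q ∈ S, ∑ x ∈ S, E x q = M * β q - β q + ∑ x ∈ S, α x - α q := by
    intro q hq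
    have h1 : ∀ x ∈ S, E x q = (β q + α x) - (if x = q then α q + β q else 0) := by
      intro x hx
      by_cases hxp : x = q
      · subst hxp; rw [if_pos rfl, hd]; ring
      · rw [if_neg hxp, hαβ x hx q hq hxp]; ring
    rw [Finset.sum_congr rfl h1, Finset.sum_sub_distrib, Finset.sum_add_distrib,
      Finset.sum_ite_eq' S q, if_pos hq, Finset.sum_const, nsmul_eq_mul, ← hM]
    ring
  have htot : (M - 1) * (∑ x ∈ S, α x + ∑ x ∈ S, β x) = 0 := by
    rw [Finset.sum_congr rfl hrow] at hT
    rw [Finset.sum_sub_distrib, Finset.sum_add_distrib, Finset.sum_sub_distrib, ← Finset.mul_sum,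
      Finset.sum_const, nsmul_eq_mul, ← hM] at hT
    linear_combination hT
  have hM1 : M - 1 ≠ 0 := by
    intro h
    rw [sub_eq_zero, hM] at h
    have : S.card = 1 := by exact_mod_cast h
    omega
  have hsum : ∑ x ∈ S, α x + ∑ x ∈ S, β x = 0 := by
    rcases mul_eq_zero.mp htot with h | h
    · exact absurd h hM1
    · exact h
  intro p hp q hq hpq
  rw [hrow p hp, hcol p hp, hcol q hq, hrow q hq, hαβ p hp q hq hpq]
  linear_combination (-(M - 1) - 1) * hsum

end OffDiag

section EZero

variable {V : Type*} [Fintype V] [DecidableEq V]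

/-- The system of linear equations for `e` has only the zero solution. -/
theorem e_zero [CharZero K] (hN : 8 ≤ Fintype.card V) (e : V → V → V → V → K)
    (e12 : ∀ a p q, e a a p q = 0) (e13 : ∀ a b q, e a b a q = 0) (e14 : ∀ a b p, e a b p a = 0)
    (e34 : ∀ a b p, e a b p p = 0)
    (F1 : ∀ a b p q, e b a p q = - e a b p q)
    (F3 : ∀ a b c d p q, [a, b, c, d, p, q].Nodup →
      e a b c q - e a b d q = e c d p b - e c d p a)
    (F4 : ∀ a x, ∑ b, ∑ p, e a b p x = 0) (F4' : ∀ a x, ∑ b, ∑ q, e a b x q = 0)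
    (F5 : ∀ a b, ∑ p, ∑ q, e a b p q = 0) :
    ∀ a b p q, e a b p q = 0 := by
  have e23 : ∀ a b q, e a b b q = 0 := fun a b q => by rw [F1, e13, neg_zero]
  have e24 : ∀ a b p, e a b p b = 0 := fun a b p => by rw [F1, e14, neg_zero]
  set N : K := (Fintype.card V : K) with hNdef
  have hex : ∀ T : Finset V, T.card ≤ 7 → ∃ x, x ∉ T := by
    intro T hT
    by_contra h
    push Not at h
    have : Fintype.card V ≤ T.card := Finset.card_le_card (fun x _ => h x)
    omega
  -- additivity
  have hadd : ∀ a b p p' q q', a ≠ b → p ≠ a → p ≠ b → p' ≠ a → p' ≠ b → q ≠ a → q ≠ b → q' ≠ a →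
      q' ≠ b → p ≠ p' → q ≠ q' → p ≠ q → p ≠ q' → p' ≠ q → p' ≠ q' →
      e a b p q - e a b p' q - e a b p q' + e a b p' q' = 0 := by
    intro a b p p' q q' hab h1 h2 h3 h4 h5 h6 h7 h8 h9 h10 h11 h12 h13 h14
    obtain ⟨x, hx⟩ := hex {a, b, p, p', q, q'} (le_trans Finset.card_le_six (by norm_num))
    simp only [mem_insert, mem_singleton, not_or] at hx
    obtain ⟨x1, x2, x3, x4, x5, x6⟩ := hx
    have i1 := F3 a b p p' x q (by simp; tauto)
    have i2 := F3 a b p p' x q' (by simp; tauto)
    linear_combination i1 - i2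
  have hcardS : ∀ a b : V, a ≠ b → ((univ \ {a, b} : Finset V).card : K) = N - 2 ∧
      6 ≤ (univ \ {a, b} : Finset V).card := by
    intro a b hab
    have h1 : (univ \ {a, b} : Finset V).card = Fintype.card V - 2 := by
      rw [Finset.card_sdiff_of_subset (Finset.subset_univ _), Finset.card_univ, Finset.card_pair hab]
    rw [h1]
    refine ⟨?_, by omega⟩
    rw [Nat.cast_sub (by omega), hNdef]; norm_num
  have hrs : ∀ a b p, ∑ x ∈ univ \ {a, b}, e a b p x = ∑ x, e a b p x := by
    intro a b p
    refine Finset.sum_subset (Finset.subset_univ _) ?_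
    intro x _ hx
    simp only [mem_sdiff, mem_univ, true_and, mem_insert, mem_singleton, not_not] at hx
    rcases hx with rfl | rfl
    · exact e14 _ _ _
    · exact e24 _ _ _
  have hcs : ∀ a b q, ∑ x ∈ univ \ {a, b}, e a b x q = ∑ x, e a b x q := by
    intro a b p
    refine Finset.sum_subset (Finset.subset_univ _) ?_
    intro x _ hx
    simp only [mem_sdiff, mem_univ, true_and, mem_insert, mem_singleton, not_not] at hx
    rcases hx with rfl | rfl
    · exact e13 _ _ _
    · exact e23 _ _ _
  have htt : ∀ a b, ∑ p ∈ univ \ {a, b}, ∑ q ∈ univ \ {a, b}, e a b p q = 0 := by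
    intro a b
    rw [Finset.sum_congr rfl (fun p _ => hrs a b p)]
    rw [← F5 a b]
    refine Finset.sum_subset (Finset.subset_univ _) ?_
    intro x _ hx
    simp only [mem_sdiff, mem_univ, true_and, mem_insert, mem_singleton, not_not] at hx
    rcases hx with rfl | rfl
    · exact Finset.sum_eq_zero fun q _ => e13 _ _ _
    · exact Finset.sum_eq_zero fun q _ => e23 _ _ _
  set κ : K := (N - 3) ^ 2 - 1 with hκ
  set α : V → V → V → K := fun a b p => (N - 3) * (∑ x, e a b p x) + ∑ x, e a b x p with hα
  set β : V → V → V → K := fun a b q => (N - 3) * (∑ x, e a b x q) + ∑ x, e a b q x with hβ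
  have hdec : ∀ a b p q, a ≠ b → p ≠ a → p ≠ b → q ≠ a → q ≠ b → p ≠ q →
      κ * e a b p q = α a b p + β a b q := by
    intro a b p q hab hpa hpb hqa hqb hpq
    have hp : p ∈ (univ \ {a, b} : Finset V) := by simp [hpa, hpb]
    have hq : q ∈ (univ \ {a, b} : Finset V) := by simp [hqa, hqb]
    have hmain := offdiag_norm (univ \ {a, b} : Finset V) (le_trans (by norm_num) (hcardS a b hab).2)
      (e a b) (by
        intro p hp p' hp' q hq q' hq' h9 h10 h11 h12 h13 h14
        simp only [mem_sdiff, mem_univ, true_and, mem_insert, mem_singleton, not_or] at hp hp' hq hq'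
        exact hadd a b p p' q q' hab hp.1 hp.2 hp'.1 hp'.2 hq.1 hq.2 hq'.1 hq'.2 h9 h10 h11 h12
          h13 h14) (e34 a b) (htt a b) p hp q hq hpq
    rw [(hcardS a b hab).1, hrs, hcs, hcs, hrs] at hmain
    simp only [hα, hβ, hκ]
    linear_combination hmain
  have hN6 : ∀ t : ℕ, t ≤ 5 → N - (t : K) ≠ 0 := by
    intro t ht h
    rw [sub_eq_zero, hNdef] at h
    have h' : Fintype.card V = t := by exact_mod_cast h
    omega
  have hN2 : N - 2 ≠ 0 := by simpa using hN6 2 (by norm_num)
  have hN4 : N - 4 ≠ 0 := by simpa using hN6 4 (by norm_num)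
  have hκ0 : κ ≠ 0 := by
    have : κ = (N - 2) * (N - 4) := by rw [hκ]; ring
    rw [this]
    exact mul_ne_zero hN2 hN4
  have hab0 := ab_zero (le_trans (by norm_num) hN) α β
    (by
      intro a b x
      simp only [hα, F1 a b, Finset.sum_neg_distrib]; ring)
    (by
      intro a b x
      simp only [hβ, F1 a b, Finset.sum_neg_distrib]; ring)
    (by
      intro a b
      simp only [hα, e13, e14, Finset.sum_const_zero]; ring)
    (by
      intro a b
      simp only [hβ, e13, e14, Finset.sum_const_zero]; ring)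
    (by
      intro a x
      simp only [hα]
      rw [Finset.sum_add_distrib, ← Finset.mul_sum, F4', F4]; ring)
    (by
      intro a x
      simp only [hβ]
      rw [Finset.sum_add_distrib, ← Finset.mul_sum, F4', F4]; ring)
    (by
      intro a b
      simp only [hα]
      rw [Finset.sum_add_distrib, ← Finset.mul_sum, F5, Finset.sum_comm, F5]; ring)
    (by
      intro a b
      simp only [hβ]
      rw [Finset.sum_add_distrib, ← Finset.mul_sum, F5, Finset.sum_comm, F5]; ring)
    (by
      intro a b c d hab hac had hbc hbd hcd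
      obtain ⟨p, hp⟩ := hex {a, b, c, d} (le_trans Finset.card_le_four (by norm_num))
      simp only [mem_insert, mem_singleton, not_or] at hp
      obtain ⟨p1, p2, p3, p4⟩ := hp
      obtain ⟨q, hq⟩ := hex {a, b, c, d, p} (le_trans Finset.card_le_five (by norm_num))
      simp only [mem_insert, mem_singleton, not_or] at hq
      obtain ⟨q1, q2, q3, q4, q5⟩ := hq
      have h := F3 a b c d p q (by simp; tauto)
      have d1 := hdec a b c q hab (Ne.symm hac) (Ne.symm hbc) q1 q2 (Ne.symm q3)
      have d2 := hdec a b d q hab (Ne.symm had) (Ne.symm hbd) q1 q2 (Ne.symm q4)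
      have d3 := hdec c d p b hcd p3 p4 hbc hbd p2
      have d4 := hdec c d p a hcd p3 p4 hac had p1
      linear_combination κ * h - d1 + d2 + d3 - d4)
  intro a b p q
  by_cases hab : a = b
  · subst hab; exact e12 _ _ _
  by_cases hpa : p = a
  · subst hpa; exact e13 _ _ _
  by_cases hpb : p = b
  · subst hpb; exact e23 _ _ _
  by_cases hqa : q = a
  · subst hqa; exact e14 _ _ _
  by_cases hqb : q = b
  · subst hqb; exact e24 _ _ _
  by_cases hpq : p = q
  · subst hpq; exact e34 _ _ _
  have h := hdec a b p q hab hpa hpb hqa hqb hpq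
  rw [(hab0 a b p).1, (hab0 a b q).2, add_zero] at h
  rcases mul_eq_zero.mp h with h | h
  · exact absurd h hκ0
  · exact h

end EZero

end Pool.Agent.Helper22.LB
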