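import Mathlib
import Pool.Agent.Helper22.LB.LinAlg

/-!
# The combinatorial part of the lower bound

A function on the permutations of `2 n + 2` positions which is invariant under rotation and satisfies
the relations `(I)`, `(C)`, `(S)` vanishes.
-/

set_option autoImplicit false

namespace Pool.Agent.Helper22.LB

open Finset Equiv Equiv.Perm

variable {K : Type*} [Field K]

/-- The position `i`, modulo `m + 1`. -/
def pos (m i : ℕ) : Fin (m + 1) := Fin.ofNat (m + 1) i

theorem pos_val (m i : ℕ) : (pos m i : ℕ) = i % (m + 1) := rfl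

theorem pos_val_of_le {m i : ℕ} (h : i ≤ m) : (pos m i : ℕ) = i := by
  rw [pos_val, Nat.mod_eq_of_lt (by omega)]

theorem pos_coe {m : ℕ} (x : Fin (m + 1)) : pos m x = x := by
  ext; rw [pos_val_of_le (by omega)]

theorem pos_inj {m i j : ℕ} (hi : i ≤ m) (hj : j ≤ m) : pos m i = pos m j ↔ i = j := by
  rw [Fin.ext_iff, pos_val_of_le hi, pos_val_of_le hj]

theorem pos_add (m i : ℕ) : pos m (i + (m + 1)) = pos m i := by
  ext; rw [pos_val, pos_val]; simp

theorem finRotate_pos (m i : ℕ) : finRotate (m + 1) (pos m i) = pos m (i + 1) := by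
  rw [finRotate_apply]
  ext
  rw [Fin.val_add, pos_val, pos_val]
  rcases Nat.eq_zero_or_pos m with h | h
  · subst h; simp [Nat.mod_one]
  · rw [Fin.val_one', Nat.mod_eq_of_lt (show 1 < m + 1 by omega)]
    simp [Nat.add_mod]

theorem finRotate_inv_pos (m i : ℕ) : (finRotate (m + 1))⁻¹ (pos m (i + 1)) = pos m i := by
  rw [← finRotate_pos]; simp

/-- the transposition of the positions `i` and `i + 1` -/
def tau (m i : ℕ) : Perm (Fin (m + 1)) := swap (pos m i) (pos m (i + 1))

theorem tau_mul_tau (m i : ℕ) : tau m i * tau m i = 1 := swap_mul_self _ _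

theorem rot_tau (m i : ℕ) : finRotate (m + 1) * tau m i = tau m (i + 1) * finRotate (m + 1) := by
  rw [tau, tau, mul_swap_eq_swap_mul, finRotate_pos, finRotate_pos]

theorem tau_apply_left (m i : ℕ) : tau m i (pos m i) = pos m (i + 1) := swap_apply_left _ _

theorem tau_apply_right (m i : ℕ) : tau m i (pos m (i + 1)) = pos m i := swap_apply_right _ _

theorem tau_apply_of_ne {m i j : ℕ} (hi : i + 1 ≤ m) (hj : j ≤ m) (h1 : j ≠ i) (h2 : j ≠ i + 1) :
    tau m i (pos m j) = pos m j := by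
  rw [tau, swap_apply_of_ne_of_ne]
  · rw [Ne, pos_inj hj (by omega)]; exact h1
  · rw [Ne, pos_inj hj (by omega)]; exact h2

theorem tau_inv (m i : ℕ) : (tau m i)⁻¹ = tau m i := swap_inv _ _

theorem cr_inv_le {m p q : ℕ} (hp : p ≤ m) (hq0 : q ≠ 0) (h : q ≤ p) :
    (Fin.cycleRange (pos m p))⁻¹ (pos m q) = pos m (q - 1) := by
  rw [Equiv.Perm.inv_eq_iff_eq, Fin.ext_iff, Fin.coe_cycleRange_of_lt,
    pos_val_of_le (h.trans hp), pos_val_of_le (by omega)]
  · omega
  · rw [Fin.lt_def, pos_val_of_le hp, pos_val_of_le (by omega)]; omega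

theorem cr_inv_gt {m p q : ℕ} (hq : q ≤ m) (h : p < q) :
    (Fin.cycleRange (pos m p))⁻¹ (pos m q) = pos m q := by
  rw [Equiv.Perm.inv_eq_iff_eq, Fin.cycleRange_of_gt]
  rw [Fin.lt_def, pos_val_of_le (by omega), pos_val_of_le hq]; exact h

section Mom

variable {m : ℕ} (ψ : Perm (Fin (m + 1)) → K)

/-- The sum of `ψ w` over the `w` with letter `a` at position `p` and letter `b` at position `q`. -/
def mom (p q a b : Fin (m + 1)) : K := ∑ w : Perm (Fin (m + 1)), if w p = a ∧ w q = b then ψ w else 0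

theorem mom_mul (σ : Perm (Fin (m + 1))) (p q a b : Fin (m + 1)) :
    (∑ w : Perm (Fin (m + 1)), if w p = a ∧ w q = b then ψ (w * σ) else 0) =
      mom ψ (σ⁻¹ p) (σ⁻¹ q) a b := by
  rw [mom]
  refine Fintype.sum_equiv (Equiv.mulRight σ) _ _ ?_
  intro w
  simp

theorem mom_symm (p q a b : Fin (m + 1)) : mom ψ p q a b = mom ψ q p b a := by
  rw [mom, mom]
  refine Finset.sum_congr rfl fun w _ => ?_
  simp only [and_comm]

theorem mom_rot (hrot : ∀ w, ψ (w * finRotate (m + 1)) = - ψ w) (i j : ℕ) (a b : Fin (m + 1)) :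
    mom ψ (pos m (i + 1)) (pos m (j + 1)) a b = - mom ψ (pos m i) (pos m j) a b := by
  have h := mom_mul ψ (finRotate (m + 1)) (pos m (i + 1)) (pos m (j + 1)) a b
  rw [finRotate_inv_pos, finRotate_inv_pos] at h
  rw [← h, mom, ← Finset.sum_neg_distrib]
  refine Finset.sum_congr rfl fun w _ => ?_
  rw [hrot]
  split_ifs <;> simp

end Mom

theorem altsum (c : ℕ) (hc : c % 2 = 1) (l : ℕ) (hl : c ≤ l) :
    ∑ k ∈ range l, (-1 : K) ^ k * (if c ≤ k then 1 else 0) = if l % 2 = 0 then -1 else 0 := by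
  induction l, hl using Nat.le_induction with
  | base =>
    rw [if_neg (by omega)]
    refine Finset.sum_eq_zero fun k hk => ?_
    rw [Finset.mem_range] at hk
    rw [if_neg (by omega), mul_zero]
  | succ l hl ih =>
    rw [Finset.sum_range_succ, ih, if_pos hl]
    rcases Nat.even_or_odd l with h | h
    · rw [h.neg_one_pow, if_pos (Nat.even_iff.mp h), if_neg]
      · ring
      · have := Nat.even_iff.mp h; omega
    · rw [h.neg_one_pow, if_neg, if_pos]
      · ring
      · have := Nat.odd_iff.mp h; omega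
      · have := Nat.odd_iff.mp h; omega

theorem altsum' (l : ℕ) :
    ∑ k ∈ range l, (-1 : K) ^ k = if l % 2 = 0 then 0 else 1 := by
  induction l with
  | zero => simp
  | succ l ih =>
    rw [Finset.sum_range_succ, ih]
    rcases Nat.even_or_odd l with h | h
    · rw [h.neg_one_pow, if_pos (Nat.even_iff.mp h), if_neg]
      · ring
      · have := Nat.even_iff.mp h; omega
    · rw [h.neg_one_pow, if_neg, if_pos]
      · ring
      · have := Nat.odd_iff.mp h; omega
      · have := Nat.odd_iff.mp h; omega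

theorem altsum2 (c : ℕ) (hc : c % 2 = 1) (l : ℕ) (hl : c ≤ l) (x : K) :
    ∑ k ∈ range l, (-1 : K) ^ (k + l) * (if c ≤ k then x else 0) = if l % 2 = 0 then -x else 0 := by
  have e : ∀ k, (-1 : K) ^ (k + l) * (if c ≤ k then x else 0) =
      ((-1 : K) ^ k * (if c ≤ k then 1 else 0)) * ((-1 : K) ^ l * x) := by
    intro k
    rw [pow_add]
    split_ifs <;> ring
  rw [Finset.sum_congr rfl fun k _ => e k, ← Finset.sum_mul, altsum c hc l hl]
  rcases Nat.even_or_odd l with h | h
  · rw [h.neg_one_pow, if_pos (Nat.even_iff.mp h), if_pos (Nat.even_iff.mp h)]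
    ring
  · rw [if_neg, if_neg]
    · ring
    · have := Nat.odd_iff.mp h; omega
    · have := Nat.odd_iff.mp h; omega

theorem sumS1 {m : ℕ} (x y : K) (n : ℕ) (hn : 1 ≤ n) (hm : m = 2 * n + 1) :
    ∑ l ∈ range m, ∑ k ∈ range l, (-1 : K) ^ (k + l) *
      (if 2 ≤ l then (if 1 ≤ k then x else 0) else y) = - y - n * x := by
  subst hm
  induction n, hn using Nat.le_induction with
  | base => simp [Finset.sum_range_succ]; ring
  | succ n hn ih =>
    rw [show 2 * (n + 1) + 1 = (2 * n + 1) + 1 + 1 by ring, Finset.sum_range_succ,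
      Finset.sum_range_succ, ih]
    simp only [if_pos (show 2 ≤ 2 * n + 1 by omega), if_pos (show 2 ≤ 2 * n + 1 + 1 by omega)]
    rw [altsum2 1 (by norm_num) _ (by omega), altsum2 1 (by norm_num) _ (by omega),
      if_neg (by omega), if_pos (by omega)]
    push_cast; ring

theorem sumS3 {m : ℕ} (x y : K) (n : ℕ) (hn : 2 ≤ n) (hm : m = 2 * n + 1) :
    ∑ l ∈ range m, ∑ k ∈ range l, (-1 : K) ^ (k + l) *
      (if 4 ≤ l then (if 3 ≤ k then x else 0) else y) = - 2 * y - (n - 1) * x := by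
  subst hm
  induction n, hn using Nat.le_induction with
  | base => simp [Finset.sum_range_succ]; ring
  | succ n hn ih =>
    rw [show 2 * (n + 1) + 1 = (2 * n + 1) + 1 + 1 by ring, Finset.sum_range_succ,
      Finset.sum_range_succ, ih]
    simp only [if_pos (show 4 ≤ 2 * n + 1 by omega), if_pos (show 4 ≤ 2 * n + 1 + 1 by omega)]
    rw [altsum2 3 (by norm_num) _ (by omega), altsum2 3 (by norm_num) _ (by omega),
      if_neg (by omega), if_pos (by omega)]
    push_cast; ring

section Avg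

variable {m : ℕ} (ψ : Perm (Fin (m + 1)) → K)

/-- Relation (C), averaged. -/
theorem avg_C (hm : m % 2 = 1)
    (hC : ∀ w, ∑ p ∈ range m, (-1 : K) ^ p * ψ (w * Fin.cycleRange (pos m p)) = 0)
    (q : ℕ) (hq : q % 2 = 1) (hqm : q < m) (a b : Fin (m + 1)) :
    mom ψ (pos m m) (pos m q) a b = 0 := by
  have h0 : (∑ w : Perm (Fin (m + 1)), if w (pos m m) = a ∧ w (pos m q) = b then
      (∑ p ∈ range m, (-1 : K) ^ p * ψ (w * Fin.cycleRange (pos m p))) else 0) = 0 := by
    refine Finset.sum_eq_zero fun w _ => ?_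
    rw [hC, ite_self]
  have h1 : (∑ p ∈ range m, (-1 : K) ^ p * (if q ≤ p then mom ψ (pos m m) (pos m (q - 1)) a b else
      mom ψ (pos m m) (pos m q) a b)) = 0 := by
    rw [← h0]
    have e1 : ∀ w : Perm (Fin (m + 1)), (if w (pos m m) = a ∧ w (pos m q) = b then
      (∑ p ∈ range m, (-1 : K) ^ p * ψ (w * Fin.cycleRange (pos m p))) else 0) =
      ∑ p ∈ range m, (-1 : K) ^ p * (if w (pos m m) = a ∧ w (pos m q) = b then
        ψ (w * Fin.cycleRange (pos m p)) else 0) := by
      intro w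
      split_ifs
      · rfl
      · simp
    rw [Finset.sum_congr rfl fun w _ => e1 w, Finset.sum_comm]
    refine Finset.sum_congr rfl fun p hp => ?_
    rw [Finset.mem_range] at hp
    rw [← Finset.mul_sum, mom_mul, cr_inv_gt le_rfl hp]
    split_ifs with h
    · rw [cr_inv_le hp.le (by omega) h]
    · rw [cr_inv_gt hqm.le (by omega)]
  have h2 : ∀ p, (-1 : K) ^ p * (if q ≤ p then mom ψ (pos m m) (pos m (q - 1)) a b else
      mom ψ (pos m m) (pos m q) a b) =
      ((-1 : K) ^ p * (if q ≤ p then 1 else 0)) * (mom ψ (pos m m) (pos m (q - 1)) a b -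
        mom ψ (pos m m) (pos m q) a b) + (-1 : K) ^ p * mom ψ (pos m m) (pos m q) a b := by
    intro p
    split_ifs <;> ring
  rw [Finset.sum_congr rfl fun p _ => h2 p, Finset.sum_add_distrib, ← Finset.sum_mul,
    ← Finset.sum_mul, altsum q hq m hqm.le, altsum', if_neg (by omega), if_neg (by omega)] at h1
  linear_combination h1

/-- Relation (S), averaged; general form. -/
theorem avg_S (hS : ∀ w, ∑ l ∈ range m, ∑ k ∈ range l, (-1 : K) ^ (k + l) *
      ψ (w * swap (pos m 0) (pos m 1) * Fin.cycleRange (pos m l) * Fin.cycleRange (pos m k)) = 0)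
    (q : ℕ) (hq : 2 ≤ q) (hqm : q < m) (a b : Fin (m + 1)) :
    ∑ l ∈ range m, ∑ k ∈ range l, (-1 : K) ^ (k + l) *
      (if q ≤ l then (if q - 1 ≤ k then mom ψ (pos m m) (pos m (q - 2)) a b else
        mom ψ (pos m m) (pos m (q - 1)) a b) else mom ψ (pos m m) (pos m q) a b) = 0 := by
  have h0 : (∑ w : Perm (Fin (m + 1)), if w (pos m m) = a ∧ w (pos m q) = b then
      (∑ l ∈ range m, ∑ k ∈ range l, (-1 : K) ^ (k + l) *
      ψ (w * swap (pos m 0) (pos m 1) * Fin.cycleRange (pos m l) * Fin.cycleRange (pos m k)))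
      else 0) = 0 := by
    refine Finset.sum_eq_zero fun w _ => ?_
    rw [hS, ite_self]
  rw [← h0]
  have e1 : ∀ w : Perm (Fin (m + 1)), (if w (pos m m) = a ∧ w (pos m q) = b then
      (∑ l ∈ range m, ∑ k ∈ range l, (-1 : K) ^ (k + l) *
      ψ (w * swap (pos m 0) (pos m 1) * Fin.cycleRange (pos m l) * Fin.cycleRange (pos m k)))
      else 0) =
    ∑ l ∈ range m, ∑ k ∈ range l, (-1 : K) ^ (k + l) * (if w (pos m m) = a ∧ w (pos m q) = b then
        ψ (w * (swap (pos m 0) (pos m 1) * Fin.cycleRange (pos m l) * Fin.cycleRange (pos m k)))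
        else 0) := by
    intro w
    split_ifs
    · simp only [mul_assoc]
    · simp
  rw [Finset.sum_congr rfl fun w _ => e1 w, Finset.sum_comm]
  refine Finset.sum_congr rfl fun l hl => ?_
  rw [Finset.mem_range] at hl
  rw [Finset.sum_comm]
  refine Finset.sum_congr rfl fun k hk => ?_
  rw [Finset.mem_range] at hk
  rw [← Finset.mul_sum, mom_mul]
  congr 1
  have hsw : ∀ j, 2 ≤ j → j ≤ m → (swap (pos m 0) (pos m 1))⁻¹ (pos m j) = pos m j := by
    intro j hj hjm
    rw [swap_inv, swap_apply_of_ne_of_ne]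
    · rw [Ne, pos_inj hjm (by omega)]; omega
    · rw [Ne, pos_inj hjm (by omega)]; omega
  simp only [mul_inv_rev, Equiv.Perm.mul_apply]
  rw [hsw m (by omega) le_rfl, hsw q hq hqm.le, cr_inv_gt le_rfl hl, cr_inv_gt le_rfl (by omega)]
  by_cases h : q ≤ l
  · rw [if_pos h, cr_inv_le hl.le (by omega) h]
    by_cases h' : q - 1 ≤ k
    · rw [if_pos h', cr_inv_le (by omega) (by omega) h']
      rfl
    · rw [if_neg h', cr_inv_gt (by omega) (by omega)]
  · rw [if_neg h, cr_inv_gt hqm.le (by omega), cr_inv_gt hqm.le (by omega)]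

end Avg

section Main

variable {m : ℕ}

/-- Everything about the averages: the signed averages `g_0`, `g_1`, `g_2` vanish. -/
theorem mom_zero [CharZero K] (n : ℕ) (hn : 3 ≤ n) (hm : m = 2 * n + 1) (ψ : Perm (Fin (m + 1)) → K)
    (hrot : ∀ w, ψ (w * finRotate (m + 1)) = - ψ w)
    (hI : ∀ w, ∀ i, 3 ≤ i → i + 2 ≤ m →
      ψ w - ψ (w * tau m 0) - ψ (w * tau m i) + ψ (w * tau m 0 * tau m i) = 0)
    (hC : ∀ w, ∑ p ∈ range m, (-1 : K) ^ p * ψ (w * Fin.cycleRange (pos m p)) = 0)
    (hS : ∀ w, ∑ l ∈ range m, ∑ k ∈ range l, (-1 : K) ^ (k + l) *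
      ψ (w * swap (pos m 0) (pos m 1) * Fin.cycleRange (pos m l) * Fin.cycleRange (pos m k)) = 0)
    (a b : Fin (m + 1)) :
    mom ψ (pos m m) (pos m 0) a b = 0 ∧ mom ψ (pos m m) (pos m 1) a b = 0 := by
  have g1 := avg_C ψ (by omega) hC 1 (by norm_num) (by omega) a b
  have g3 := avg_C ψ (by omega) hC 3 (by norm_num) (by omega) a b
  -- g4 = g2
  have h42 : mom ψ (pos m m) (pos m 4) a b = mom ψ (pos m m) (pos m 2) a b := by
    have h0 : (∑ w : Perm (Fin (m + 1)), if w (pos m 0) = a ∧ w (pos m 4) = b then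
      (ψ w - ψ (w * tau m 0) - ψ (w * tau m 4) + ψ (w * tau m 0 * tau m 4)) else 0) = 0 := by
      refine Finset.sum_eq_zero fun w _ => ?_
      rw [hI w 4 (by norm_num) (by omega), ite_self]
    have e1 : ∀ w : Perm (Fin (m + 1)), (if w (pos m 0) = a ∧ w (pos m 4) = b then
      (ψ w - ψ (w * tau m 0) - ψ (w * tau m 4) + ψ (w * tau m 0 * tau m 4)) else 0) =
      (if w (pos m 0) = a ∧ w (pos m 4) = b then ψ w else 0) -
      (if w (pos m 0) = a ∧ w (pos m 4) = b then ψ (w * tau m 0) else 0) -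
      (if w (pos m 0) = a ∧ w (pos m 4) = b then ψ (w * tau m 4) else 0) +
      (if w (pos m 0) = a ∧ w (pos m 4) = b then ψ (w * (tau m 0 * tau m 4)) else 0) := by
      intro w
      rw [mul_assoc]
      split_ifs <;> ring
    rw [Finset.sum_congr rfl fun w _ => e1 w, Finset.sum_add_distrib, Finset.sum_sub_distrib,
      Finset.sum_sub_distrib, mom_mul, mom_mul, mom_mul, mul_inv_rev, tau_inv, tau_inv,
      Equiv.Perm.mul_apply, Equiv.Perm.mul_apply] at h0
    rw [tau_apply_of_ne (i := 4) (j := 0) (by omega) (by omega) (by norm_num) (by norm_num),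
      tau_apply_of_ne (i := 0) (j := 4) (by omega) (by omega) (by norm_num) (by norm_num),
      tau_apply_left, tau_apply_left,
      tau_apply_of_ne (i := 4) (j := 0 + 1) (by omega) (by omega) (by norm_num) (by norm_num)] at h0
    change mom ψ (pos m 0) (pos m 4) a b - mom ψ (pos m 1) (pos m 4) a b -
      mom ψ (pos m 0) (pos m 5) a b + mom ψ (pos m 1) (pos m 5) a b = 0 at h0
    have r1 := mom_rot ψ hrot m 3 a b
    have r2 := mom_rot ψ hrot 0 3 a b
    have r3 := mom_rot ψ hrot m 2 a b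
    have r4 := mom_rot ψ hrot m 4 a b
    have r5 := mom_rot ψ hrot 0 4 a b
    have p0 : pos m (m + 1) = pos m 0 := by have := pos_add m 0; rwa [zero_add] at this
    rw [p0] at r1 r3 r4
    simp only [Nat.reduceAdd] at r1 r2 r3 r4 r5
    rw [r5, r2, r3, r4, r1] at h0
    linear_combination h0
  -- g2 = - n g0
  have hs2 := avg_S ψ hS 2 le_rfl (by omega) a b
  simp only [Nat.reduceSub, g1] at hs2
  rw [sumS1 _ _ n (by omega) hm] at hs2
  have hs4 := avg_S ψ hS 4 (by norm_num) (by omega) a b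
  simp only [Nat.reduceSub, g3] at hs4
  rw [sumS3 _ _ n (by omega) hm] at hs4
  refine ⟨?_, g1⟩
  have hn0 : (n : K) ≠ 0 := by
    have : n ≠ 0 := by omega
    exact_mod_cast this
  have hn1 : (n : K) + 1 ≠ 0 := by
    have : n + 1 ≠ 0 := by omega
    exact_mod_cast this
  have hfin : ((n : K) + 1) * (n * mom ψ (pos m m) (pos m 0) a b) = 0 := by
    linear_combination hs4 + 2 * h42 - ((n : K) + 1) * hs2
  rcases mul_eq_zero.mp hfin with h | h
  · exact absurd h hn1
  · rcases mul_eq_zero.mp h with h | h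
    · exact absurd h hn0
    · exact h

end Main

end Pool.Agent.Helper22.LB
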