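import Mathlib
import Pool.Agent.Helper22.LB.Comb

/-!
# The combinatorial part of the lower bound, second half
-/

set_option autoImplicit false

namespace Pool.Agent.Helper22.LB

open Finset Equiv Equiv.Perm

variable {K : Type*} [Field K] {m : ℕ}

/-- The difference of `ψ` under the transposition of the first two positions. -/
def dd (ψ : Perm (Fin (m + 1)) → K) (w : Perm (Fin (m + 1))) : K := ψ w - ψ (w * tau m 0)

theorem dd_tau (ψ : Perm (Fin (m + 1)) → K) (w : Perm (Fin (m + 1))) :
    dd ψ (w * tau m 0) = - dd ψ w := by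
  rw [dd, dd, mul_assoc, tau_mul_tau, mul_one]; ring

theorem dd_swap (ψ : Perm (Fin (m + 1)) → K)
    (hI : ∀ w, ∀ i, 3 ≤ i → i + 2 ≤ m →
      ψ w - ψ (w * tau m 0) - ψ (w * tau m i) + ψ (w * tau m 0 * tau m i) = 0)
    (w : Perm (Fin (m + 1))) (i : ℕ) (h3 : 3 ≤ i) (him : i + 2 ≤ m) :
    dd ψ (w * tau m i) = dd ψ w := by
  have hcomm : tau m 0 * tau m i = tau m i * tau m 0 := by
    have hd : Disjoint (tau m 0) (tau m i) := by
      rw [tau, tau]
      apply disjoint_swap_swap
      simp only [List.nodup_cons, List.mem_cons, List.not_mem_nil, or_false, not_or,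
        not_false_eq_true, List.nodup_nil, and_true]
      refine ⟨⟨?_, ?_, ?_⟩, ⟨?_, ?_⟩, ?_⟩ <;> rw [pos_inj (by omega) (by omega)] <;> omega
    exact hd.commute
  rw [dd, dd]
  have h := hI w i h3 him
  rw [mul_assoc w, hcomm, ← mul_assoc] at h
  linear_combination -h

/-- `D` only depends on the letters in the positions `0, 1, 2, m`. -/
theorem dd_inv (ψ : Perm (Fin (m + 1)) → K) (hm : 5 ≤ m)
    (hI : ∀ w, ∀ i, 3 ≤ i → i + 2 ≤ m →
      ψ w - ψ (w * tau m 0) - ψ (w * tau m i) + ψ (w * tau m 0 * tau m i) = 0)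
    (σ : Perm (Fin (m + 1))) (h0 : σ (pos m 0) = pos m 0) (h1 : σ (pos m 1) = pos m 1)
    (h2 : σ (pos m 2) = pos m 2) (hmm : σ (pos m m) = pos m m) (w : Perm (Fin (m + 1))) :
    dd ψ (w * σ) = dd ψ w := by
  set S : Set (Perm (Fin (m + 1))) := {τ | ∃ i, 3 ≤ i ∧ i + 2 ≤ m ∧ τ = tau m i} with hSdef
  have hswap : ∀ f ∈ S, f.IsSwap := by
    rintro f ⟨i, h3, him, rfl⟩
    refine ⟨_, _, ?_, rfl⟩
    rw [Ne, pos_inj (by omega) (by omega)]; omega
  have horb : ∀ i, 3 ≤ i → i + 1 ≤ m → pos m i ∈ MulAction.orbit (Subgroup.closure S) (pos m 3) := by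
    intro i hi
    induction i, hi using Nat.le_induction with
    | base => intro _; exact MulAction.mem_orbit_self _
    | succ i hi ih =>
      intro him
      have hmem : tau m i ∈ Subgroup.closure S :=
        Subgroup.subset_closure ⟨i, hi, by omega, rfl⟩
      have h := ih (by omega)
      rw [← MulAction.orbit_eq_iff] at h
      rw [← h]
      exact ⟨⟨tau m i, hmem⟩, tau_apply_left m i⟩
  have hσ : σ ∈ Subgroup.closure S := by
    rw [_root_.mem_closure_isSwap hswap]
    refine ⟨Set.toFinite _, ?_⟩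
    intro x
    by_cases hx : x = pos m 0 ∨ x = pos m 1 ∨ x = pos m 2 ∨ x = pos m m
    · have : σ x = x := by
        rcases hx with rfl | rfl | rfl | rfl <;> assumption
      rw [this]
      exact MulAction.mem_orbit_self _
    · push Not at hx
      obtain ⟨x0, x1, x2, x3⟩ := hx
      have hpos : ∀ y : Fin (m + 1), y ≠ pos m 0 → y ≠ pos m 1 → y ≠ pos m 2 → y ≠ pos m m →
          y ∈ MulAction.orbit (Subgroup.closure S) (pos m 3) := by
        intro y y0 y1 y2 y3
        rw [Ne, Fin.ext_iff, pos_val_of_le (by omega)] at y0 y1 y2 y3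
        have := horb y (by omega) (by omega)
        rwa [pos_coe] at this
      have hx1 := hpos x x0 x1 x2 x3
      have hx2 := hpos (σ x) (by rw [← h0]; exact fun h => x0 (σ.injective h))
        (by rw [← h1]; exact fun h => x1 (σ.injective h))
        (by rw [← h2]; exact fun h => x2 (σ.injective h))
        (by rw [← hmm]; exact fun h => x3 (σ.injective h))
      rw [← MulAction.orbit_eq_iff] at hx1
      rw [hx1]
      exact hx2
  clear h0 h1 h2 hmm
  revert w
  induction hσ using Subgroup.closure_induction with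
  | mem x hx =>
    obtain ⟨i, h3, him, rfl⟩ := hx
    intro w
    exact dd_swap ψ hI w i h3 him
  | one => intro w; rw [mul_one]
  | mul x y _ _ hx hy =>
    intro w
    rw [← mul_assoc, hy, hx]
  | inv x _ hx =>
    intro w
    rw [← hx (w * x⁻¹), inv_mul_cancel_right]

/-- The permutations fixing the positions `0, 1, 2, m`. -/
def Fix (m : ℕ) : Finset (Perm (Fin (m + 1))) :=
  univ.filter fun σ => σ (pos m 0) = pos m 0 ∧ σ (pos m 1) = pos m 1 ∧ σ (pos m 2) = pos m 2 ∧
    σ (pos m m) = pos m m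

/-- The sum of `D w` over all `w` with the given letters in the positions `0, 1, 2, m`. -/
def ee (ψ : Perm (Fin (m + 1)) → K) (a b p q : Fin (m + 1)) : K :=
  ∑ w : Perm (Fin (m + 1)), if w (pos m 0) = a ∧ w (pos m 1) = b ∧ w (pos m 2) = p ∧
    w (pos m m) = q then dd ψ w else 0

theorem ee_eq (ψ : Perm (Fin (m + 1)) → K) (hm : 5 ≤ m)
    (hI : ∀ w, ∀ i, 3 ≤ i → i + 2 ≤ m →
      ψ w - ψ (w * tau m 0) - ψ (w * tau m i) + ψ (w * tau m 0 * tau m i) = 0)
    (w : Perm (Fin (m + 1))) :
    ee ψ (w (pos m 0)) (w (pos m 1)) (w (pos m 2)) (w (pos m m)) = (Fix m).card * dd ψ w := by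
  have h1 : ee ψ (w (pos m 0)) (w (pos m 1)) (w (pos m 2)) (w (pos m m)) =
      ∑ σ : Perm (Fin (m + 1)), if σ (pos m 0) = pos m 0 ∧ σ (pos m 1) = pos m 1 ∧
        σ (pos m 2) = pos m 2 ∧ σ (pos m m) = pos m m then dd ψ (w * σ) else 0 := by
    rw [ee]
    refine (Fintype.sum_equiv (Equiv.mulLeft w) _ _ ?_).symm
    intro σ
    simp
  rw [h1, ← Finset.sum_filter, Finset.sum_congr rfl (g := fun _ => dd ψ w), Finset.sum_const,
    nsmul_eq_mul, Fix]
  intro σ hσ
  rw [Finset.mem_filter] at hσ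
  exact dd_inv ψ hm hI σ hσ.2.1 hσ.2.2.1 hσ.2.2.2.1 hσ.2.2.2.2 w

theorem ee_F1 (ψ : Perm (Fin (m + 1)) → K) (hm : 5 ≤ m) (a b p q : Fin (m + 1)) :
    ee ψ b a p q = - ee ψ a b p q := by
  rw [ee, ee, ← Finset.sum_neg_distrib]
  refine Fintype.sum_equiv (Equiv.mulRight (tau m 0)) _ _ ?_
  intro w
  simp only [Equiv.coe_mulRight, Equiv.Perm.mul_apply, tau_apply_left, dd_tau]
  have e1 : tau m 0 (pos m 1) = pos m 0 := tau_apply_right m 0
  have e2 : tau m 0 (pos m 2) = pos m 2 :=
    tau_apply_of_ne (by omega) (by omega) (by norm_num) (by norm_num)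
  have e3 : tau m 0 (pos m m) = pos m m := tau_apply_of_ne (by omega) le_rfl (by omega) (by omega)
  rw [e1, e2, e3]
  simp only [Nat.reduceAdd]
  by_cases h : w (pos m 0) = b ∧ w (pos m 1) = a ∧ w (pos m 2) = p ∧ w (pos m m) = q
  · rw [if_pos h, if_pos ⟨h.2.1, h.1, h.2.2.1, h.2.2.2⟩, neg_neg]
  · rw [if_neg h, if_neg, neg_zero]
    rintro ⟨h1, h2, h3, h4⟩
    exact h ⟨h2, h1, h3, h4⟩

theorem rot2 (m i : ℕ) : (finRotate (m + 1) * finRotate (m + 1)) (pos m i) = pos m (i + 2) := by
  rw [Equiv.Perm.mul_apply, finRotate_pos, finRotate_pos]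

theorem ee_F3 [CharZero K] (ψ : Perm (Fin (m + 1)) → K) (hm : 7 ≤ m)
    (hrot : ∀ w, ψ (w * finRotate (m + 1)) = - ψ w)
    (hI : ∀ w, ∀ i, 3 ≤ i → i + 2 ≤ m →
      ψ w - ψ (w * tau m 0) - ψ (w * tau m i) + ψ (w * tau m 0 * tau m i) = 0)
    (a b c d p q : Fin (m + 1)) (hnd : [a, b, c, d, p, q].Nodup) :
    ee ψ a b c q - ee ψ a b d q = ee ψ c d p b - ee ψ c d p a := by
  set ρ := finRotate (m + 1) with hρ
  -- a permutation with these letters
  obtain ⟨w, hw⟩ : ∃ w : Perm (Fin (m + 1)), w (pos m 0) = a ∧ w (pos m 1) = b ∧ w (pos m 2) = c ∧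
      w (pos m 3) = d ∧ w (pos m 4) = p ∧ w (pos m m) = q := by
    have hnd' : [pos m 0, pos m 1, pos m 2, pos m 3, pos m 4, pos m m].Nodup := by
      simp only [List.nodup_cons, List.mem_cons, List.not_mem_nil, or_false, not_or,
        not_false_eq_true, List.nodup_nil, and_true]
      refine ⟨⟨?_, ?_, ?_, ?_, ?_⟩, ⟨?_, ?_, ?_, ?_⟩, ⟨?_, ?_, ?_⟩, ⟨?_, ?_⟩, ?_⟩ <;>
        rw [pos_inj (by omega) (by omega)] <;> omega
    obtain ⟨w, hw⟩ := Equiv.Perm.exists_extending_pair
      [pos m 0, pos m 1, pos m 2, pos m 3, pos m 4, pos m m].get [a, b, c, d, p, q].get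
      (List.nodup_iff_injective_get.mp hnd') (List.nodup_iff_injective_get.mp hnd)
    exact ⟨w, hw 0, hw 1, hw 2, hw 3, hw 4, hw 5⟩
  obtain ⟨w0, w1, w2, w3, w4, w5⟩ := hw
  have t2 : ∀ j, j ≤ m → j ≠ 2 → j ≠ 3 → tau m 2 (pos m j) = pos m j := fun j h1 h2 h3 =>
    tau_apply_of_ne (by omega) h1 h2 h3
  have t0 : ∀ j, j ≤ m → j ≠ 0 → j ≠ 1 → tau m 0 (pos m j) = pos m j := fun j h1 h2 h3 =>
    tau_apply_of_ne (by omega) h1 h2 h3
  have tl2 : tau m 2 (pos m 2) = pos m 3 := tau_apply_left m 2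
  have tl0 : tau m 0 (pos m 0) = pos m 1 := tau_apply_left m 0
  have tr0 : tau m 0 (pos m 1) = pos m 0 := tau_apply_right m 0
  have pm : pos m (m + 2) = pos m 1 := by
    have := pos_add m 1
    rw [show 1 + (m + 1) = m + 2 by ring] at this
    exact this
  have k1 := ee_eq ψ (by omega) hI w
  have k2 := ee_eq ψ (by omega) hI (w * tau m 2)
  have k3 := ee_eq ψ (by omega) hI (w * (ρ * ρ))
  have k4 := ee_eq ψ (by omega) hI (w * tau m 0 * (ρ * ρ))
  simp only [Equiv.Perm.mul_apply (w * tau m 0), Equiv.Perm.mul_apply w, hρ, rot2, pm, zero_add,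
    Nat.reduceAdd] at k1 k2 k3 k4
  rw [t2 0 (by omega) (by omega) (by omega), t2 1 (by omega) (by omega) (by omega), tl2,
    t2 m le_rfl (by omega) (by omega)] at k2
  rw [t0 2 (by omega) (by omega) (by omega), t0 3 (by omega) (by omega) (by omega),
    t0 4 (by omega) (by omega) (by omega), tr0] at k4
  rw [w0, w1, w2, w5] at k1
  rw [w0, w1, w3, w5] at k2
  rw [w2, w3, w4, w1] at k3
  rw [w2, w3, w4, w0] at k4
  rw [← hρ] at k3 k4
  have hrr : ∀ w, ψ (w * (ρ * ρ)) = ψ w := by
    intro w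
    rw [← mul_assoc, hrot, hrot, neg_neg]
  have hcm : ρ * ρ * tau m 0 = tau m 2 * (ρ * ρ) := by
    rw [mul_assoc, hρ, rot_tau, ← mul_assoc, rot_tau, mul_assoc]
  have hcomm : tau m 0 * tau m 2 = tau m 2 * tau m 0 := by
    have hd : Disjoint (tau m 0) (tau m 2) := by
      rw [tau, tau]
      apply disjoint_swap_swap
      simp only [List.nodup_cons, List.mem_cons, List.not_mem_nil, or_false, not_or,
        not_false_eq_true, List.nodup_nil, and_true]
      refine ⟨⟨?_, ?_, ?_⟩, ⟨?_, ?_⟩, ?_⟩ <;> rw [pos_inj (by omega) (by omega)] <;> omega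
    exact hd.commute
  have d3 : dd ψ (w * (ρ * ρ)) = ψ w - ψ (w * tau m 2) := by
    rw [dd, hrr, mul_assoc, hcm, ← mul_assoc, hrr]
  have d4 : dd ψ (w * tau m 0 * (ρ * ρ)) = ψ (w * tau m 0) - ψ (w * tau m 2 * tau m 0) := by
    rw [dd, hrr, mul_assoc (w * tau m 0), hcm, ← mul_assoc, hrr, mul_assoc w, hcomm, ← mul_assoc]
  rw [k1, k2, k3, k4, d3, d4, dd, dd]
  ring

theorem dd_zero (n : ℕ) [CharZero K] (hn : 3 ≤ n) (hm : m = 2 * n + 1)
    (ψ : Perm (Fin (m + 1)) → K)
    (hrot : ∀ w, ψ (w * finRotate (m + 1)) = - ψ w)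
    (hI : ∀ w, ∀ i, 3 ≤ i → i + 2 ≤ m →
      ψ w - ψ (w * tau m 0) - ψ (w * tau m i) + ψ (w * tau m 0 * tau m i) = 0)
    (hC : ∀ w, ∑ p ∈ range m, (-1 : K) ^ p * ψ (w * Fin.cycleRange (pos m p)) = 0)
    (hS : ∀ w, ∑ l ∈ range m, ∑ k ∈ range l, (-1 : K) ^ (k + l) *
      ψ (w * swap (pos m 0) (pos m 1) * Fin.cycleRange (pos m l) * Fin.cycleRange (pos m k)) = 0)
    (w : Perm (Fin (m + 1))) : dd ψ w = 0 := by
  have hg := mom_zero n hn hm ψ hrot hI hC hS
  have g0 : ∀ a b, mom ψ (pos m m) (pos m 0) a b = 0 := fun a b => (hg a b).1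
  have g1 : ∀ a b, mom ψ (pos m m) (pos m 1) a b = 0 := fun a b => (hg a b).2
  have g0' : ∀ a b, mom ψ (pos m 0) (pos m m) a b = 0 := fun a b => by rw [mom_symm, g0]
  have g1' : ∀ a b, mom ψ (pos m 1) (pos m m) a b = 0 := fun a b => by rw [mom_symm, g1]
  have p0 : pos m (m + 1) = pos m 0 := by have := pos_add m 0; rwa [zero_add] at this
  have g01 : ∀ a b, mom ψ (pos m 0) (pos m 1) a b = 0 := fun a b => by
    have := mom_rot ψ hrot m 0 a b
    rw [p0, g0, neg_zero] at this
    exact this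
  have g10 : ∀ a b, mom ψ (pos m 1) (pos m 0) a b = 0 := fun a b => by rw [mom_symm, g01]
  have g02 : ∀ a b, mom ψ (pos m 0) (pos m 2) a b = 0 := fun a b => by
    have := mom_rot ψ hrot m 1 a b
    rw [p0, g1, neg_zero] at this
    exact this
  have g12 : ∀ a b, mom ψ (pos m 1) (pos m 2) a b = 0 := fun a b => by
    have := mom_rot ψ hrot 0 1 a b
    rw [g01, neg_zero] at this
    exact this
  have hdm : ∀ i j a b : Fin (m + 1), (∑ w : Perm (Fin (m + 1)),
      if w i = a ∧ w j = b then dd ψ w else 0) =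
      mom ψ i j a b - mom ψ (tau m 0 i) (tau m 0 j) a b := by
    intro i j a b
    have h1 := mom_mul ψ (tau m 0) i j a b
    rw [tau_inv] at h1
    rw [← h1, mom, ← Finset.sum_sub_distrib]
    refine Finset.sum_congr rfl fun w _ => ?_
    split_ifs
    · rfl
    · simp
  have hz : ∀ a b p q, ee ψ a b p q = 0 := by
    refine e_zero (V := Fin (m + 1)) ?_ (ee ψ) ?_ ?_ ?_ ?_ ?_ ?_ ?_ ?_ ?_
    · rw [Fintype.card_fin]; omega
    · intro a p q
      refine Finset.sum_eq_zero fun w _ => if_neg ?_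
      rintro ⟨h1, h2, -, -⟩
      have := w.injective (h1.trans h2.symm)
      rw [pos_inj (by omega) (by omega)] at this; omega
    · intro a b q
      refine Finset.sum_eq_zero fun w _ => if_neg ?_
      rintro ⟨h1, -, h2, -⟩
      have := w.injective (h1.trans h2.symm)
      rw [pos_inj (by omega) (by omega)] at this; omega
    · intro a b q
      refine Finset.sum_eq_zero fun w _ => if_neg ?_
      rintro ⟨h1, -, -, h2⟩
      have := w.injective (h1.trans h2.symm)
      rw [pos_inj (by omega) (by omega)] at this; omega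
    · intro a b q
      refine Finset.sum_eq_zero fun w _ => if_neg ?_
      rintro ⟨-, -, h1, h2⟩
      have := w.injective (h1.trans h2.symm)
      rw [pos_inj (by omega) (by omega)] at this; omega
    · exact ee_F1 ψ (by omega)
    · exact ee_F3 ψ (by omega) hrot hI
    · -- F4
      intro a x
      have h1 : ∀ b, ∑ p, ee ψ a b p x = ∑ w : Perm (Fin (m + 1)),
          if w (pos m 0) = a ∧ w (pos m 1) = b ∧ w (pos m m) = x then dd ψ w else 0 := by
        intro b
        simp only [ee]
        rw [Finset.sum_comm]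
        refine Finset.sum_congr rfl fun w _ => ?_
        by_cases h : w (pos m 0) = a ∧ w (pos m 1) = b ∧ w (pos m m) = x
        · rw [if_pos h, Finset.sum_eq_single (w (pos m 2))]
          · rw [if_pos ⟨h.1, h.2.1, rfl, h.2.2⟩]
          · intro y _ hy
            exact if_neg fun h' => hy h'.2.2.1.symm
          · intro h'; exact absurd (Finset.mem_univ _) h'
        · rw [if_neg h]
          exact Finset.sum_eq_zero fun y _ => if_neg fun h' => h ⟨h'.1, h'.2.1, h'.2.2.2⟩
      rw [Finset.sum_congr rfl fun b _ => h1 b, Finset.sum_comm]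
      have h2 : ∀ w : Perm (Fin (m + 1)), (∑ b, if w (pos m 0) = a ∧ w (pos m 1) = b ∧
          w (pos m m) = x then dd ψ w else 0) =
          if w (pos m 0) = a ∧ w (pos m m) = x then dd ψ w else 0 := by
        intro w
        by_cases h : w (pos m 0) = a ∧ w (pos m m) = x
        · rw [if_pos h, Finset.sum_eq_single (w (pos m 1))]
          · rw [if_pos ⟨h.1, rfl, h.2⟩]
          · intro y _ hy
            exact if_neg fun h' => hy h'.2.1.symm
          · intro h'; exact absurd (Finset.mem_univ _) h'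
        · rw [if_neg h]
          exact Finset.sum_eq_zero fun y _ => if_neg fun h' => h ⟨h'.1, h'.2.2⟩
      rw [Finset.sum_congr rfl fun w _ => h2 w, hdm, tau_apply_left,
        tau_apply_of_ne (by omega) le_rfl (by omega) (by omega), g0']
      change 0 - mom ψ (pos m 1) (pos m m) a x = 0
      rw [g1', sub_zero]
    · -- F4'
      intro a x
      have h1 : ∀ b, ∑ q, ee ψ a b x q = ∑ w : Perm (Fin (m + 1)),
          if w (pos m 0) = a ∧ w (pos m 1) = b ∧ w (pos m 2) = x then dd ψ w else 0 := by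
        intro b
        simp only [ee]
        rw [Finset.sum_comm]
        refine Finset.sum_congr rfl fun w _ => ?_
        by_cases h : w (pos m 0) = a ∧ w (pos m 1) = b ∧ w (pos m 2) = x
        · rw [if_pos h, Finset.sum_eq_single (w (pos m m))]
          · rw [if_pos ⟨h.1, h.2.1, h.2.2, rfl⟩]
          · intro y _ hy
            exact if_neg fun h' => hy h'.2.2.2.symm
          · intro h'; exact absurd (Finset.mem_univ _) h'
        · rw [if_neg h]
          exact Finset.sum_eq_zero fun y _ => if_neg fun h' => h ⟨h'.1, h'.2.1, h'.2.2.1⟩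
      rw [Finset.sum_congr rfl fun b _ => h1 b, Finset.sum_comm]
      have h2 : ∀ w : Perm (Fin (m + 1)), (∑ b, if w (pos m 0) = a ∧ w (pos m 1) = b ∧
          w (pos m 2) = x then dd ψ w else 0) =
          if w (pos m 0) = a ∧ w (pos m 2) = x then dd ψ w else 0 := by
        intro w
        by_cases h : w (pos m 0) = a ∧ w (pos m 2) = x
        · rw [if_pos h, Finset.sum_eq_single (w (pos m 1))]
          · rw [if_pos ⟨h.1, rfl, h.2⟩]
          · intro y _ hy
            exact if_neg fun h' => hy h'.2.1.symm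
          · intro h'; exact absurd (Finset.mem_univ _) h'
        · rw [if_neg h]
          exact Finset.sum_eq_zero fun y _ => if_neg fun h' => h ⟨h'.1, h'.2.2⟩
      rw [Finset.sum_congr rfl fun w _ => h2 w, hdm, tau_apply_left,
        tau_apply_of_ne (by omega) (by omega) (by omega) (by omega), g02]
      change 0 - mom ψ (pos m 1) (pos m 2) a x = 0
      rw [g12, sub_zero]
    · -- F5
      intro a b
      have h1 : ∀ p, ∑ q, ee ψ a b p q = ∑ w : Perm (Fin (m + 1)),
          if w (pos m 0) = a ∧ w (pos m 1) = b ∧ w (pos m 2) = p then dd ψ w else 0 := by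
        intro p
        simp only [ee]
        rw [Finset.sum_comm]
        refine Finset.sum_congr rfl fun w _ => ?_
        by_cases h : w (pos m 0) = a ∧ w (pos m 1) = b ∧ w (pos m 2) = p
        · rw [if_pos h, Finset.sum_eq_single (w (pos m m))]
          · rw [if_pos ⟨h.1, h.2.1, h.2.2, rfl⟩]
          · intro y _ hy
            exact if_neg fun h' => hy h'.2.2.2.symm
          · intro h'; exact absurd (Finset.mem_univ _) h'
        · rw [if_neg h]
          exact Finset.sum_eq_zero fun y _ => if_neg fun h' => h ⟨h'.1, h'.2.1, h'.2.2.1⟩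
      rw [Finset.sum_congr rfl fun b _ => h1 b, Finset.sum_comm]
      have h2 : ∀ w : Perm (Fin (m + 1)), (∑ p, if w (pos m 0) = a ∧ w (pos m 1) = b ∧
          w (pos m 2) = p then dd ψ w else 0) =
          if w (pos m 0) = a ∧ w (pos m 1) = b then dd ψ w else 0 := by
        intro w
        by_cases h : w (pos m 0) = a ∧ w (pos m 1) = b
        · rw [if_pos h, Finset.sum_eq_single (w (pos m 2))]
          · rw [if_pos ⟨h.1, h.2, rfl⟩]
          · intro y _ hy
            exact if_neg fun h' => hy h'.2.2.symm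
          · intro h'; exact absurd (Finset.mem_univ _) h'
        · rw [if_neg h]
          exact Finset.sum_eq_zero fun y _ => if_neg fun h' => h ⟨h'.1, h'.2.1⟩
      rw [Finset.sum_congr rfl fun w _ => h2 w, hdm, tau_apply_left, g01]
      change 0 - mom ψ (pos m 1) (tau m 0 (pos m (0 + 1))) a b = 0
      rw [tau_apply_right, g10, sub_zero]
  have h := ee_eq ψ (by omega) hI w
  rw [hz] at h
  have hc : ((Fix m).card : K) ≠ 0 := by
    have : (Fix m).card ≠ 0 := by
      rw [Finset.card_ne_zero]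
      exact ⟨1, by simp [Fix]⟩
    exact_mod_cast this
  rcases mul_eq_zero.mp h.symm with h | h
  · exact absurd h hc
  · exact h

/-- **The combinatorial theorem**, sign-twisted form. -/
theorem psi_zero (n : ℕ) [CharZero K] (hn : 3 ≤ n) (hm : m = 2 * n + 1)
    (ψ : Perm (Fin (m + 1)) → K)
    (hrot : ∀ w, ψ (w * finRotate (m + 1)) = - ψ w)
    (hI : ∀ w, ∀ i, 3 ≤ i → i + 2 ≤ m →
      ψ w - ψ (w * tau m 0) - ψ (w * tau m i) + ψ (w * tau m 0 * tau m i) = 0)
    (hC : ∀ w, ∑ p ∈ range m, (-1 : K) ^ p * ψ (w * Fin.cycleRange (pos m p)) = 0)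
    (hS : ∀ w, ∑ l ∈ range m, ∑ k ∈ range l, (-1 : K) ^ (k + l) *
      ψ (w * swap (pos m 0) (pos m 1) * Fin.cycleRange (pos m l) * Fin.cycleRange (pos m k)) = 0)
    (w : Perm (Fin (m + 1))) : ψ w = 0 := by
  have hd := dd_zero n hn hm ψ hrot hI hC hS
  have htau : ∀ i, ∀ w, ψ (w * tau m i) = ψ w := by
    intro i
    induction i with
    | zero => intro w; have := hd w; rw [dd, sub_eq_zero] at this; exact this.symm
    | succ i ih =>
      intro w
      have h1 : tau m (i + 1) * finRotate (m + 1) = finRotate (m + 1) * tau m i := (rot_tau m i).symm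
      have h2 := hrot (w * tau m (i + 1))
      rw [mul_assoc, h1, ← mul_assoc, ih, hrot] at h2
      exact (neg_injective h2).symm
  have hall : ∀ σ : Perm (Fin (m + 1)), ∀ w, ψ (w * σ) = ψ w := by
    intro σ
    have hσ : σ ∈ Submonoid.closure (Set.range fun i : Fin m ↦ swap i.castSucc i.succ) := by
      rw [Equiv.Perm.mclosure_swap_castSucc_succ]; trivial
    induction hσ using Submonoid.closure_induction with
    | mem x hx =>
      obtain ⟨i, rfl⟩ := hx
      intro w
      have : swap i.castSucc i.succ = tau m i := by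
        rw [tau]
        congr 1
        · ext; rw [pos_val_of_le (by omega)]; rfl
        · ext; rw [pos_val_of_le (by omega)]; rfl
      simp only [this]
      exact htau _ w
    | one => intro w; rw [mul_one]
    | mul x y _ _ hx hy => intro w; rw [← mul_assoc, hy, hx]
  have h := hrot w
  rw [hall] at h
  have h2 : (2 : K) * ψ w = 0 := by linear_combination h
  simpa using h2

/-- **The combinatorial theorem.** -/
theorem phi_zero (n : ℕ) [CharZero K] (hn : 3 ≤ n) (hm : m = 2 * n + 1)
    (φ : Perm (Fin (m + 1)) → K)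
    (hrot : ∀ w, φ (w * finRotate (m + 1)) = φ w)
    (hI : ∀ w, ∀ i, 3 ≤ i → i + 2 ≤ m →
      φ w + φ (w * tau m 0) + φ (w * tau m i) + φ (w * tau m 0 * tau m i) = 0)
    (hC : ∀ w, ∑ p ∈ range m, φ (w * Fin.cycleRange (pos m p)) = 0)
    (hS : ∀ w, ∑ l ∈ range m, ∑ k ∈ range l,
      φ (w * swap (pos m 0) (pos m 1) * Fin.cycleRange (pos m l) * Fin.cycleRange (pos m k)) = 0)
    (w : Perm (Fin (m + 1))) : φ w = 0 := by
  set s : Perm (Fin (m + 1)) → K := fun w => ((sign w : ℤ) : K) with hs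
  have hsm : ∀ a b, s (a * b) = s a * s b := by
    intro a b; simp [hs]
  have hss : ∀ a, s a * s a = 1 := by
    intro a
    rcases Int.units_eq_one_or (sign a) with h | h <;> simp [hs, h]
  have htau : ∀ i, i + 1 ≤ m → s (tau m i) = -1 := by
    intro i hi
    have : sign (tau m i) = -1 := by
      rw [tau, sign_swap]
      rw [Ne, pos_inj (by omega) (by omega)]; omega
    simp [hs, this]
  have hcr : ∀ p, p ≤ m → s (Fin.cycleRange (pos m p)) = (-1) ^ p := by
    intro p hp
    simp only [hs, Fin.sign_cycleRange, pos_val_of_le hp]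
    push_cast
    ring
  have hrs : s (finRotate (m + 1)) = -1 := by
    simp only [hs, sign_finRotate]
    have : (-1 : ℤˣ) ^ (m + 1 - 1) = -1 := by
      rw [Nat.add_sub_cancel, hm]
      exact Odd.neg_one_pow ⟨n, rfl⟩
    rw [this]; simp
  have hψ := psi_zero n hn hm (fun w => s w * φ w) ?_ ?_ ?_ ?_ w
  · have := congrArg (fun t => s w * t) hψ
    simp only [mul_zero] at this
    rw [← mul_assoc, hss, one_mul] at this
    exact this
  · intro w
    simp only [hsm, hrs, hrot]; ring
  · intro w i h3 him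
    simp only [hsm, htau 0 (by omega), htau i (by omega)]
    linear_combination s w * hI w i h3 him
  · intro w
    have h := hC w
    have e : ∀ p ∈ range m, (-1 : K) ^ p * (s (w * Fin.cycleRange (pos m p)) *
        φ (w * Fin.cycleRange (pos m p))) = s w * φ (w * Fin.cycleRange (pos m p)) := by
      intro p hp
      rw [Finset.mem_range] at hp
      rw [hsm, hcr p hp.le]
      have : (-1 : K) ^ p * (-1) ^ p = 1 := by rw [← mul_pow]; simp
      linear_combination (s w * φ (w * Fin.cycleRange (pos m p))) * this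
    rw [Finset.sum_congr rfl e, ← Finset.mul_sum, h, mul_zero]
  · intro w
    have h := hS w
    have e : ∀ l ∈ range m, ∑ k ∈ range l, (-1 : K) ^ (k + l) *
      (s (w * swap (pos m 0) (pos m 1) * Fin.cycleRange (pos m l) * Fin.cycleRange (pos m k)) *
      φ (w * swap (pos m 0) (pos m 1) * Fin.cycleRange (pos m l) * Fin.cycleRange (pos m k))) =
      - s w * ∑ k ∈ range l,
      φ (w * swap (pos m 0) (pos m 1) * Fin.cycleRange (pos m l) * Fin.cycleRange (pos m k)) := by
      intro l hl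
      rw [Finset.mul_sum]
      refine Finset.sum_congr rfl fun k hk => ?_
      rw [Finset.mem_range] at hl hk
      have ht0 : s (swap (pos m 0) (pos m 1)) = -1 := htau 0 (by omega)
      rw [hsm, hsm, hsm, hcr l hl.le, hcr k (by omega), ht0, pow_add]
      have h1 : (-1 : K) ^ k * (-1) ^ k = 1 := by rw [← mul_pow]; simp
      have h2 : (-1 : K) ^ l * (-1) ^ l = 1 := by rw [← mul_pow]; simp
      have h3 : (-1 : K) ^ k * (-1 : K) ^ l * (s w * -1 * (-1) ^ l * (-1) ^ k) = - s w := by
        linear_combination (-(s w)) * ((-1 : K) ^ l * (-1) ^ l) * h1 - s w * h2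
      linear_combination φ (w * swap (pos m 0) (pos m 1) * Fin.cycleRange (pos m l) *
        Fin.cycleRange (pos m k)) * h3
    rw [Finset.sum_congr rfl e, ← Finset.mul_sum, h, mul_zero]

end Pool.Agent.Helper22.LB
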