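import Mathlib

/-!
# Noncommutative polynomials: coefficients, derivations, Lie elements, change of root
-/

set_option autoImplicit false

namespace Pool.Agent.Helper22.LB

open Finset

section Alg

variable (K : Type*) [Field K] (V : Type*)

/-- noncommutative polynomials in the letters `V` -/
abbrev NC := MonoidAlgebra K (FreeMonoid V)

variable {V}

/-- monomials -/
noncomputable def mon (l : List V) : NC K V := MonoidAlgebra.single (FreeMonoid.ofList l) 1

theorem mon_nil : mon K ([] : List V) = 1 := rfl

theorem mon_append (l l' : List V) : mon K (l ++ l') = mon K l * mon K l' := by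
  rw [mon, mon, mon, MonoidAlgebra.single_mul_single, one_mul]
  rfl

theorem mon_cons (v : V) (l : List V) : mon K (v :: l) = mon K [v] * mon K l := by
  rw [← mon_append]; rfl

variable {K}

theorem single_eq (m : FreeMonoid V) (r : K) :
    (MonoidAlgebra.single m r : NC K V) = r • mon K (FreeMonoid.toList m) := by
  rw [mon, MonoidAlgebra.smul_single, smul_eq_mul, mul_one]
  rfl

theorem nc_ind {P : NC K V → Prop} (zero : P 0) (add : ∀ f g, P f → P g → P (f + g))
    (smul : ∀ (r : K) (l : List V), P (r • mon K l)) (f : NC K V) : P f := by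
  refine MonoidAlgebra.induction_linear f zero (fun f g hf hg => add f g hf hg) ?_
  intro m r
  rw [single_eq]
  exact smul _ _

/-- the coefficient of a word -/
noncomputable def cf (l : List V) : NC K V →ₗ[K] K where
  toFun f := f.coeff (FreeMonoid.ofList l)
  map_add' f g := by simp
  map_smul' r f := by simp

/-- linear extension of a function on words -/
noncomputable def lext {M : Type*} [AddCommGroup M] [Module K M] (φ : List V → M) :
    NC K V →ₗ[K] M where
  toFun f := Finsupp.linearCombination K (fun m : FreeMonoid V => φ (FreeMonoid.toList m)) f.coeff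
  map_add' f g := by simp
  map_smul' r f := by simp

theorem lext_mon {M : Type*} [AddCommGroup M] [Module K M] (φ : List V → M) (l : List V) :
    lext φ (mon K l) = φ l := by
  simp only [lext, mon, LinearMap.coe_mk, AddHom.coe_mk]
  rw [MonoidAlgebra.coeff_single, Finsupp.linearCombination_single, one_smul]
  rfl

theorem nc_hom_ext {M : Type*} [AddCommGroup M] [Module K M] {F G : NC K V →ₗ[K] M}
    (h : ∀ l, F (mon K l) = G (mon K l)) : F = G := by
  refine LinearMap.ext fun f => ?_
  induction f using nc_ind with
  | zero => rw [map_zero, map_zero]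
  | add f g hf hg => rw [map_add, map_add, hf, hg]
  | smul r l => rw [map_smul, map_smul, h]

variable [DecidableEq V]

theorem cf_mon (l l' : List V) : cf l (mon K l') = if l = l' then 1 else 0 := by
  rw [cf, mon]
  simp only [LinearMap.coe_mk, AddHom.coe_mk]
  classical
  rw [MonoidAlgebra.coeff_single, Finsupp.single_apply]
  by_cases h : l = l'
  · rw [if_pos h, if_pos (by rw [h])]
  · rw [if_neg h, if_neg]
    intro h'; exact h (FreeMonoid.ofList.injective h').symm

theorem cf_ext {f g : NC K V} (h : ∀ l, cf l f = cf l g) : f = g := by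
  apply MonoidAlgebra.coeff_injective
  ext m
  exact h (FreeMonoid.toList m)

/-- derivative with respect to the letter `c`, on words: delete an occurrence of `c` -/
noncomputable def Dw (c : V) : List V → NC K V
  | [] => 0
  | v :: l => mon K [v] * Dw c l + if v = c then mon K l else 0

/-- delete an occurrence of `c` and a later occurrence of `d` -/
noncomputable def Ew (c d : V) : List V → NC K V
  | [] => 0
  | v :: l => mon K [v] * Ew c d l + if v = c then Dw d l else 0

theorem Dw_append (c : V) (l l' : List V) :
    (Dw c (l ++ l') : NC K V) = Dw c l * mon K l' + mon K l * Dw c l' := by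
  induction l with
  | nil => simp [Dw, mon_nil]
  | cons v l ih =>
    rw [List.cons_append, Dw, ih, Dw, mon_cons K v l]
    split_ifs with h
    · rw [mon_append]; noncomm_ring
    · noncomm_ring

theorem Ew_append (c d : V) (l l' : List V) :
    (Ew c d (l ++ l') : NC K V) = Ew c d l * mon K l' + mon K l * Ew c d l' + Dw c l * Dw d l' := by
  induction l with
  | nil => simp [Ew, Dw, mon_nil]
  | cons v l ih =>
    rw [List.cons_append, Ew, ih, Ew, mon_cons K v l, Dw]
    split_ifs with h
    · rw [Dw_append]; noncomm_ring
    · noncomm_ring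

theorem D_mul (c : V) (f g : NC K V) :
    lext (Dw c) (f * g) = lext (Dw c) f * g + f * lext (Dw c) g := by
  induction f using nc_ind with
  | zero => simp
  | add f f' hf hf' => rw [add_mul, map_add, hf, hf', map_add]; noncomm_ring
  | smul r l =>
    induction g using nc_ind with
    | zero => simp
    | add g g' hg hg' => rw [mul_add, map_add, hg, hg', map_add]; noncomm_ring
    | smul s l' =>
      simp only [smul_mul_smul_comm, map_smul, lext_mon, ← mon_append, Dw_append, smul_add]

theorem E_mul (c d : V) (f g : NC K V) :
    lext (Ew c d) (f * g) = lext (Ew c d) f * g + f * lext (Ew c d) g +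
      lext (Dw c) f * lext (Dw d) g := by
  induction f using nc_ind with
  | zero => simp
  | add f f' hf hf' => rw [add_mul, map_add, hf, hf', map_add, map_add]; noncomm_ring
  | smul r l =>
    induction g using nc_ind with
    | zero => simp
    | add g g' hg hg' => rw [mul_add, map_add, hg, hg', map_add, map_add]; noncomm_ring
    | smul s l' =>
      simp only [smul_mul_smul_comm, map_smul, lext_mon, ← mon_append, Ew_append, smul_add]

/-- Lie elements -/
inductive IsLie : NC K V → Prop
  | of (v : V) : IsLie (mon K [v])
  | zero : IsLie 0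
  | add {f g : NC K V} : IsLie f → IsLie g → IsLie (f + g)
  | smul (r : K) {f : NC K V} : IsLie f → IsLie (r • f)
  | br {f g : NC K V} : IsLie f → IsLie g → IsLie (f * g - g * f)

theorem IsLie.D {f : NC K V} (hf : IsLie f) (c : V) : ∃ r : K, lext (Dw c) f = r • (1 : NC K V) := by
  induction hf with
  | of v =>
    rw [lext_mon, Dw, Dw]
    split_ifs
    · exact ⟨1, by rw [mon_nil, mul_zero, zero_add, one_smul]⟩
    · exact ⟨0, by simp⟩
  | zero => exact ⟨0, by simp⟩
  | add _ _ h1 h2 =>
    obtain ⟨r, hr⟩ := h1
    obtain ⟨s, hs⟩ := h2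
    exact ⟨r + s, by rw [map_add, hr, hs, add_smul]⟩
  | smul t _ h1 =>
    obtain ⟨r, hr⟩ := h1
    exact ⟨t * r, by rw [map_smul, hr, mul_smul]⟩
  | br _ _ h1 h2 =>
    obtain ⟨r, hr⟩ := h1
    obtain ⟨s, hs⟩ := h2
    refine ⟨0, ?_⟩
    rw [map_sub, D_mul, D_mul, hr, hs]
    simp only [smul_mul_assoc, one_mul, mul_smul_comm, mul_one, zero_smul]
    abel

theorem IsLie.E {f : NC K V} (hf : IsLie f) (c d : V) : ∃ r : K, lext (Ew c d) f = r • (1 : NC K V) := by
  induction hf with
  | of v =>
    rw [lext_mon, Ew, Ew, Dw]
    exact ⟨0, by simp⟩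
  | zero => exact ⟨0, by simp⟩
  | add _ _ h1 h2 =>
    obtain ⟨r, hr⟩ := h1
    obtain ⟨s, hs⟩ := h2
    exact ⟨r + s, by rw [map_add, hr, hs, add_smul]⟩
  | smul t _ h1 =>
    obtain ⟨r, hr⟩ := h1
    exact ⟨t * r, by rw [map_smul, hr, mul_smul]⟩
  | br hf hg h1 h2 =>
    obtain ⟨r, hr⟩ := h1
    obtain ⟨s, hs⟩ := h2
    obtain ⟨p1, hp1⟩ := hf.D c
    obtain ⟨p2, hp2⟩ := hf.D d
    obtain ⟨q1, hq1⟩ := hg.D c
    obtain ⟨q2, hq2⟩ := hg.D d
    refine ⟨p1 * q2 - q1 * p2, ?_⟩
    rw [map_sub, E_mul, E_mul, hr, hs, hp1, hp2, hq1, hq2]
    simp only [smul_mul_assoc, one_mul, mul_smul_comm, mul_one, smul_smul, sub_smul]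
    rw [mul_comm p1 q2, mul_comm q1 p2]
    abel

/-- multiplication by a letter on coefficients -/
theorem cf_cons (v : V) (f : NC K V) (b : V) (l : List V) :
    cf (b :: l) (mon K [v] * f) = if b = v then cf l f else 0 := by
  induction f using nc_ind with
  | zero => simp
  | add f g hf hg => rw [mul_add, map_add, hf, hg, map_add]; split_ifs <;> simp
  | smul r l' =>
    rw [mul_smul_comm, ← mon_append, map_smul, map_smul, cf_mon, cf_mon]
    simp only [List.singleton_append, List.cons.injEq]
    by_cases h : b = v
    · simp [h]
    · simp [h]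

theorem cf_cons_nil (v : V) (f : NC K V) : cf [] (mon K [v] * f) = 0 := by
  induction f using nc_ind with
  | zero => simp
  | add f g hf hg => rw [mul_add, map_add, hf, hg, add_zero]
  | smul r l' =>
    rw [mul_smul_comm, ← mon_append, map_smul, cf_mon]
    simp

theorem cf_Dw (c : V) (m : List V) : ∀ l : List V,
    cf l (Dw c m : NC K V) = ∑ p ∈ range (l.length + 1), cf (l.insertIdx p c) (mon K m) := by
  induction m with
  | nil =>
    intro l
    rw [Dw, map_zero]
    refine (Finset.sum_eq_zero fun p hp => ?_).symm
    rw [cf_mon, if_neg]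
    intro h
    have := congrArg List.length h
    rw [Finset.mem_range] at hp
    rw [List.length_insertIdx, if_pos (by omega)] at this
    simp at this
  | cons v m ih =>
    intro l
    rw [Dw, map_add, Finset.sum_range_succ']
    simp only [List.insertIdx_zero]
    congr 1
    · cases l with
      | nil => simp [cf_cons_nil]
      | cons b l =>
        rw [cf_cons, ih]
        simp only [List.insertIdx_succ_cons, List.length_cons]
        split_ifs with h
        · refine Finset.sum_congr rfl fun p _ => ?_
          rw [cf_mon, cf_mon]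
          simp [h]
        · refine (Finset.sum_eq_zero fun p _ => ?_).symm
          rw [cf_mon, if_neg]
          simp [h]
    · rw [cf_mon]
      split_ifs with h1 h2 h2
      · rw [cf_mon, if_pos]
        exact (List.cons.inj h2).2
      · rw [cf_mon, if_neg]
        intro h3; exact h2 (by rw [h1, h3])
      · exact absurd (List.cons.inj h2).1.symm h1
      · rw [map_zero]

theorem cf_Ew (c d : V) (m : List V) : ∀ l : List V,
    cf l (Ew c d m : NC K V) = ∑ j ∈ range (l.length + 1), ∑ k ∈ range (j + 1),
      cf ((l.insertIdx j d).insertIdx k c) (mon K m) := by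
  induction m with
  | nil =>
    intro l
    rw [Ew, map_zero]
    refine (Finset.sum_eq_zero fun j hj => Finset.sum_eq_zero fun k hk => ?_).symm
    rw [cf_mon, if_neg]
    intro h
    have := congrArg List.length h
    rw [Finset.mem_range] at hj hk
    rw [List.length_insertIdx, List.length_insertIdx, if_pos (show j ≤ l.length by omega),
      if_pos (by omega)] at this
    simp at this
  | cons v m ih =>
    intro l
    rw [Ew, map_add]
    have h1 : ∀ j ∈ range (l.length + 1), (∑ k ∈ range (j + 1),
        cf ((l.insertIdx j d).insertIdx k c) (mon K (v :: m))) =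
        (∑ k ∈ range j, cf ((l.insertIdx j d).insertIdx (k + 1) c) (mon K (v :: m))) +
        cf (c :: l.insertIdx j d) (mon K (v :: m)) := by
      intro j _
      rw [Finset.sum_range_succ']
      simp only [List.insertIdx_zero]
    rw [Finset.sum_congr rfl h1, Finset.sum_add_distrib]
    congr 1
    · rw [Finset.sum_range_succ']
      simp only [Finset.range_zero, Finset.sum_empty, add_zero]
      cases l with
      | nil => simp [cf_cons_nil]
      | cons b l =>
        rw [cf_cons, ih]
        simp only [List.insertIdx_succ_cons, List.length_cons]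
        split_ifs with h
        · refine Finset.sum_congr rfl fun j _ => Finset.sum_congr rfl fun k _ => ?_
          rw [cf_mon, cf_mon]
          simp [h]
        · refine (Finset.sum_eq_zero fun j _ => Finset.sum_eq_zero fun k _ => ?_).symm
          rw [cf_mon, if_neg]
          simp [h]
    · split_ifs with h1
      · rw [cf_Dw]
        refine Finset.sum_congr rfl fun j _ => ?_
        rw [cf_mon, cf_mon]
        simp [h1]
      · rw [map_zero]
        refine (Finset.sum_eq_zero fun j _ => ?_).symm
        rw [cf_mon, if_neg]
        intro h2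
        exact h1 (List.cons.inj h2).1.symm

theorem cf_D (c : V) (f : NC K V) (l : List V) :
    cf l (lext (Dw c) f : NC K V) = ∑ p ∈ range (l.length + 1), cf (l.insertIdx p c) f := by
  induction f using nc_ind with
  | zero => simp
  | add f g hf hg =>
    simp only [map_add]
    rw [hf, hg, Finset.sum_add_distrib]
  | smul r l' =>
    simp only [map_smul, lext_mon]
    rw [cf_Dw, Finset.smul_sum]

theorem cf_E (c d : V) (f : NC K V) (l : List V) :
    cf l (lext (Ew c d) f : NC K V) = ∑ j ∈ range (l.length + 1), ∑ k ∈ range (j + 1),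
      cf ((l.insertIdx j d).insertIdx k c) f := by
  induction f using nc_ind with
  | zero => simp
  | add f g hf hg =>
    simp only [map_add]
    rw [hf, hg]
    simp only [Finset.sum_add_distrib]
  | smul r l' =>
    simp only [map_smul, lext_mon]
    rw [cf_Ew]
    simp only [Finset.smul_sum]

theorem cf_one (l : List V) (hl : l ≠ []) : cf l (1 : NC K V) = 0 := by
  rw [← mon_nil, cf_mon, if_neg hl]

/-- Relation (C). -/
theorem IsLie.insert1 {f : NC K V} (hf : IsLie f) (c : V) (l : List V) (hl : l ≠ []) :
    ∑ p ∈ range (l.length + 1), cf (l.insertIdx p c) f = 0 := by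
  obtain ⟨r, hr⟩ := hf.D c
  rw [← cf_D, hr, map_smul, cf_one l hl, smul_zero]

/-- Relation (S). -/
theorem IsLie.insert2 {f : NC K V} (hf : IsLie f) (c d : V) (l : List V) (hl : l ≠ []) :
    ∑ j ∈ range (l.length + 1), ∑ k ∈ range (j + 1),
      cf ((l.insertIdx j d).insertIdx k c) f = 0 := by
  obtain ⟨r, hr⟩ := hf.E c d
  rw [← cf_E, hr, map_smul, cf_one l hl, smul_zero]

end Alg

end Pool.Agent.Helper22.LB
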