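import Mathlib
import Pool.Agent.Helper22.LB.Words

/-!
# Change of root in cyclic words, and evaluation
-/

set_option autoImplicit false
set_option linter.unusedSectionVars false

namespace Pool.Agent.Helper22.LB

open Finset

variable {K : Type*} [Field K] {V : Type*} [DecidableEq V]

/-- polynomials of multidegree `μ` -/
noncomputable def MD (K : Type*) [Field K] {V : Type*} (μ : Multiset V) : Submodule K (NC K V) :=
  Submodule.span K {f | ∃ l : List V, (l : Multiset V) = μ ∧ f = mon K l}

theorem mon_mem_MD {l : List V} {μ : Multiset V} (h : (l : Multiset V) = μ) : mon K l ∈ MD K μ :=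
  Submodule.subset_span ⟨l, h, rfl⟩

theorem MD_mul {μ ν : Multiset V} {f g : NC K V} (hf : f ∈ MD K μ) (hg : g ∈ MD K ν) :
    f * g ∈ MD K (μ + ν) := by
  induction hf using Submodule.span_induction with
  | mem f hf =>
    obtain ⟨l, hl, rfl⟩ := hf
    induction hg using Submodule.span_induction with
    | mem g hg =>
      obtain ⟨l', hl', rfl⟩ := hg
      rw [← mon_append]
      exact mon_mem_MD (by rw [← hl, ← hl']; rfl)
    | zero => rw [mul_zero]; exact Submodule.zero_mem _
    | add g g' _ _ h1 h2 => rw [mul_add]; exact Submodule.add_mem _ h1 h2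
    | smul r g _ h1 => rw [mul_smul_comm]; exact Submodule.smul_mem _ _ h1
  | zero => rw [zero_mul]; exact Submodule.zero_mem _
  | add f f' _ _ h1 h2 => rw [add_mul]; exact Submodule.add_mem _ h1 h2
  | smul r f _ h1 => rw [smul_mul_assoc]; exact Submodule.smul_mem _ _ h1

theorem MD_br {μ ν ρ : Multiset V} {f g : NC K V} (hf : f ∈ MD K μ) (hg : g ∈ MD K ν)
    (h : μ + ν = ρ) : f * g - g * f ∈ MD K ρ := by
  subst h
  refine Submodule.sub_mem _ (MD_mul hf hg) ?_
  rw [add_comm]
  exact MD_mul hg hf

theorem MD_cf {μ : Multiset V} {f : NC K V} (hf : f ∈ MD K μ) (l : List V)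
    (h : (l : Multiset V) ≠ μ) : cf l f = 0 := by
  induction hf using Submodule.span_induction with
  | mem f hf =>
    obtain ⟨l', hl', rfl⟩ := hf
    rw [cf_mon, if_neg]
    rintro rfl
    exact h hl'
  | zero => rw [map_zero]
  | add f f' _ _ h1 h2 => rw [map_add, h1, h2, add_zero]
  | smul r f _ h1 => rw [map_smul, h1, smul_zero]

/-- commutators -/
noncomputable def Com (K : Type*) [Field K] (V : Type*) : Submodule K (NC K V) :=
  Submodule.span K {x | ∃ f g : NC K V, x = f * g - g * f}

theorem com_mem (f g : NC K V) : f * g - g * f ∈ Com K V := Submodule.subset_span ⟨f, g, rfl⟩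

/-- right-normed brackets -/
noncomputable def rn (l : List V) (y : NC K V) : NC K V :=
  l.foldr (fun p q => mon K [p] * q - q * mon K [p]) y

theorem rn_cons (p : V) (l : List V) (y : NC K V) :
    rn (p :: l) y = mon K [p] * rn l y - rn l y * mon K [p] := rfl

theorem rn_lie (l : List V) (y : V) : IsLie (rn l (mon K [y])) := by
  induction l with
  | nil => exact IsLie.of y
  | cons p l ih => exact IsLie.br (IsLie.of p) ih

theorem rn_MD (l : List V) (y : V) : rn l (mon K [y]) ∈ MD K ((l ++ [y] : List V) : Multiset V) := by
  induction l with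
  | nil => exact mon_mem_MD rfl
  | cons p l ih =>
    refine MD_br (mon_mem_MD (μ := ([p] : List V)) rfl) ih ?_
    rfl

theorem root_change (u : List V) (y : V) : ∀ (h : NC K V) (μ : Multiset V), IsLie h → h ∈ MD K μ →
    ∀ a ∈ u ++ [y], ∃ g : NC K V, IsLie g ∧
      g ∈ MD K ((μ + ((u ++ [y] : List V) : Multiset V)).erase a) ∧
      h * rn u (mon K [y]) - mon K [a] * g ∈ Com K V := by
  induction u with
  | nil =>
    intro h μ hL hM a ha
    rw [List.nil_append, List.mem_singleton] at ha
    subst ha
    refine ⟨h, hL, ?_, ?_⟩
    · rw [List.nil_append, Multiset.erase_add_right_pos]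
      · simpa using hM
      · simp
    · exact com_mem _ _
  | cons p u ih =>
    intro h μ hL hM a ha
    by_cases hap : a = p
    · subst hap
      refine ⟨rn u (mon K [y]) * h - h * rn u (mon K [y]), IsLie.br (rn_lie u y) hL, ?_, ?_⟩
      · refine MD_br (rn_MD u y) hM ?_
        rw [List.cons_append, ← Multiset.cons_coe, Multiset.add_cons, Multiset.erase_cons_head,
          add_comm]
      · rw [rn_cons]
        have e : h * (mon K [a] * rn u (mon K [y]) - rn u (mon K [y]) * mon K [a]) -
            mon K [a] * (rn u (mon K [y]) * h - h * rn u (mon K [y])) =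
            ((h * mon K [a]) * rn u (mon K [y]) - rn u (mon K [y]) * (h * mon K [a])) -
            ((h * rn u (mon K [y])) * mon K [a] - mon K [a] * (h * rn u (mon K [y]))) -
            (mon K [a] * (rn u (mon K [y]) * h) - (rn u (mon K [y]) * h) * mon K [a]) := by
          noncomm_ring
        rw [e]
        exact Submodule.sub_mem _ (Submodule.sub_mem _ (com_mem _ _) (com_mem _ _)) (com_mem _ _)
    · have ha' : a ∈ u ++ [y] := by
        rw [List.cons_append, List.mem_cons] at ha
        exact ha.resolve_left hap
      obtain ⟨g, g1, g2, g3⟩ := ih (h * mon K [p] - mon K [p] * h) (μ + ([p] : List V))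
        (IsLie.br hL (IsLie.of p)) (MD_br hM (mon_mem_MD rfl) rfl) a ha'
      refine ⟨g, g1, ?_, ?_⟩
      · have e : μ + (([p] : List V) : Multiset V) + ((u ++ [y] : List V) : Multiset V) =
            μ + ((p :: u ++ [y] : List V) : Multiset V) := by
          rw [add_assoc]; rfl
        rwa [e] at g2
      · rw [rn_cons]
        have e : h * (mon K [p] * rn u (mon K [y]) - rn u (mon K [y]) * mon K [p]) - mon K [a] * g =
            ((h * mon K [p] - mon K [p] * h) * rn u (mon K [y]) - mon K [a] * g) +
            (mon K [p] * (h * rn u (mon K [y])) - (h * rn u (mon K [y])) * mon K [p]) := by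
          noncomm_ring
        rw [e]
        exact Submodule.add_mem _ g3 (com_mem _ _)

/-- the cyclic words of a polynomial -/
noncomputable def cyc (K : Type*) [Field K] (V : Type*) : NC K V →ₗ[K] (Cycle V →₀ K) :=
  lext fun l => Finsupp.single (l : Cycle V) 1

theorem cyc_mon (l : List V) : cyc K V (mon K l) = Finsupp.single (l : Cycle V) 1 := by
  rw [cyc, lext_mon]

theorem cyc_comm (f g : NC K V) : cyc K V (f * g) = cyc K V (g * f) := by
  induction f using nc_ind with
  | zero => simp
  | add f f' hf hf' => rw [add_mul, mul_add, map_add, map_add, hf, hf']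
  | smul r l =>
    induction g using nc_ind with
    | zero => simp
    | add g g' hg hg' => rw [add_mul, mul_add, map_add, map_add, hg, hg']
    | smul s l' =>
      rw [smul_mul_smul_comm, smul_mul_smul_comm, map_smul, map_smul, ← mon_append, ← mon_append,
        cyc_mon, cyc_mon, mul_comm r s]
      congr 2
      rw [Cycle.coe_eq_coe]
      exact List.isRotated_append

theorem cyc_Com {f : NC K V} (hf : f ∈ Com K V) : cyc K V f = 0 := by
  induction hf using Submodule.span_induction with
  | mem f hf =>
    obtain ⟨g, h, rfl⟩ := hf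
    rw [map_sub, cyc_comm, sub_self]
  | zero => rw [map_zero]
  | add f f' _ _ h1 h2 => rw [map_add, h1, h2, add_zero]
  | smul r f _ h1 => rw [map_smul, h1, smul_zero]

theorem cons_rotated {a : V} {l l' : List V} (ha : a ∉ l) (h : (a :: l) ~r (a :: l')) : l = l' := by
  obtain ⟨n, hn, h⟩ := List.isRotated_iff_mod.mp h
  rw [List.rotate_eq_drop_append_take hn] at h
  cases n with
  | zero => simpa using h
  | succ k =>
    rw [List.drop_succ_cons, List.take_succ_cons] at h
    cases hd : List.drop k l with
    | nil =>
      rw [hd, List.nil_append] at h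
      have h1 := (List.cons.inj h).2
      have h2 : l.length ≤ k := by
        rw [List.drop_eq_nil_iff] at hd; exact hd
      rw [List.take_of_length_le h2] at h1
      exact h1
    | cons b t =>
      rw [hd, List.cons_append] at h
      have h1 := (List.cons.inj h).1
      exfalso
      apply ha
      have : b ∈ List.drop k l := by rw [hd]; exact List.mem_cons_self
      rw [← h1]
      exact List.mem_of_mem_drop this

theorem cyc_root {μ : Multiset V} {g : NC K V} (hg : g ∈ MD K μ) (a : V) (l : List V)
    (hl : a ∉ l) : cyc K V (mon K [a] * g) ((a :: l : List V) : Cycle V) = cf l g := by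
  induction hg using Submodule.span_induction with
  | mem g hg =>
    obtain ⟨l', hl', rfl⟩ := hg
    classical
    rw [← mon_append, cyc_mon, Finsupp.single_apply, cf_mon]
    by_cases h : l = l'
    · rw [if_pos h, if_pos (by rw [h]; rfl)]
    · rw [if_neg h, if_neg]
      intro h'
      rw [Cycle.coe_eq_coe] at h'
      exact h (cons_rotated hl h'.symm)
  | zero => simp
  | add f f' _ _ h1 h2 => rw [mul_add, map_add, map_add, Finsupp.add_apply, h1, h2]
  | smul r f _ h1 => rw [mul_smul_comm, map_smul, map_smul, Finsupp.smul_apply, h1]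

section Ev

variable {n : ℕ}

/-- evaluation at matrices -/
noncomputable def ev (x : V → Matrix (Fin n) (Fin n) K) : NC K V →ₐ[K] Matrix (Fin n) (Fin n) K :=
  MonoidAlgebra.lift K _ _ (FreeMonoid.lift x)

theorem ev_mon (x : V → Matrix (Fin n) (Fin n) K) (l : List V) :
    ev x (mon K l) = (l.map x).prod := by
  rw [ev, mon, MonoidAlgebra.lift_single, one_smul, FreeMonoid.lift_apply]
  rfl

theorem ev_letter (x : V → Matrix (Fin n) (Fin n) K) (v : V) : ev x (mon K [v]) = x v := by
  rw [ev_mon]; simp

theorem trace_Com (x : V → Matrix (Fin n) (Fin n) K) {f : NC K V} (hf : f ∈ Com K V) :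
    (ev x f).trace = 0 := by
  induction hf using Submodule.span_induction with
  | mem f hf =>
    obtain ⟨g, h, rfl⟩ := hf
    rw [map_sub, map_mul, map_mul, Matrix.trace_sub, Matrix.trace_mul_comm, sub_self]
  | zero => rw [map_zero, Matrix.trace_zero]
  | add f f' _ _ h1 h2 => rw [map_add, Matrix.trace_add, h1, h2, add_zero]
  | smul r f _ h1 => rw [map_smul, Matrix.trace_smul, h1, smul_zero]

theorem ev_congr {x x' : V → Matrix (Fin n) (Fin n) K} {μ : Multiset V} {f : NC K V}
    (hf : f ∈ MD K μ) (h : ∀ v ∈ μ, x v = x' v) : ev x f = ev x' f := by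
  induction hf using Submodule.span_induction with
  | mem f hf =>
    obtain ⟨l, hl, rfl⟩ := hf
    rw [ev_mon, ev_mon]
    congr 1
    refine List.map_congr_left fun v hv => h v ?_
    rw [← hl]
    exact hv
  | zero => rw [map_zero, map_zero]
  | add f f' _ _ h1 h2 => rw [map_add, map_add, h1, h2]
  | smul r f _ h1 => rw [map_smul, map_smul, h1]

/-- If `x_z g` and `x_a g'` have the same cyclic words and `g` is an identity of matrices then so is
`g'`. -/
theorem ev_root {g g' : NC K V} {μ : Multiset V} (a : V) (z : V) (ha : a ∉ μ) (hg' : g' ∈ MD K μ)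
    (hc : mon K [z] * g - mon K [a] * g' ∈ Com K V)
    (hid : ∀ x : V → Matrix (Fin n) (Fin n) K, ev x g = 0)
    (x : V → Matrix (Fin n) (Fin n) K) : ev x g' = 0 := by
  have h1 : ∀ Y : Matrix (Fin n) (Fin n) K, (Y * ev x g').trace = 0 := by
    intro Y
    have h2 := trace_Com (Function.update x a Y) hc
    rw [map_sub, map_mul, map_mul, hid, mul_zero, zero_sub, Matrix.trace_neg, neg_eq_zero,
      ev_letter, Function.update_self] at h2
    have h3 : ev (Function.update x a Y) g' = ev x g' := by
      refine ev_congr hg' fun v hv => ?_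
      rw [Function.update_of_ne]
      rintro rfl
      exact ha hv
    rwa [h3] at h2
  ext i j
  have := h1 (Matrix.single j i 1)
  rw [Matrix.trace_single_mul] at this
  simpa using this

/-- recursive evaluation of a function on words -/
def evr {ι : Type*} [Fintype ι] [DecidableEq ι] (x : V → Matrix ι ι K) :
    ℕ → Finset V → (List V → K) → Matrix ι ι K
  | 0, _, c => c [] • 1
  | k + 1, S, c => ∑ q ∈ S, x q * evr x k (S.erase q) (fun l => c (q :: l))

theorem evr_add {ι : Type*} [Fintype ι] [DecidableEq ι] (x : V → Matrix ι ι K) (k : ℕ) :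
    ∀ (S : Finset V) (c c' : List V → K),
      evr x k S (fun l => c l + c' l) = evr x k S c + evr x k S c' := by
  induction k with
  | zero => intro S c c'; simp [evr, add_smul]
  | succ k ih =>
    intro S c c'
    simp only [evr]
    rw [← Finset.sum_add_distrib]
    refine Finset.sum_congr rfl fun q _ => ?_
    rw [ih, mul_add]

theorem evr_smul {ι : Type*} [Fintype ι] [DecidableEq ι] (x : V → Matrix ι ι K) (k : ℕ) :
    ∀ (S : Finset V) (r : K) (c : List V → K),
      evr x k S (fun l => r • c l) = r • evr x k S c := by
  induction k with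
  | zero => intro S r c; simp [evr, mul_smul]
  | succ k ih =>
    intro S r c
    simp only [evr]
    rw [Finset.smul_sum]
    refine Finset.sum_congr rfl fun q _ => ?_
    rw [ih, mul_smul_comm]

theorem evr_zero {ι : Type*} [Fintype ι] [DecidableEq ι] (x : V → Matrix ι ι K) (k : ℕ)
    (S : Finset V) : evr x k S (fun _ => 0) = 0 := by
  have := evr_smul x k S 0 (fun _ => 0)
  simpa using this

theorem evr_mon (x : V → Matrix (Fin n) (Fin n) K) (l : List V) :
    ∀ S : Finset V, (l : Multiset V) = S.val →
      evr x S.card S (fun l' => if l' = l then 1 else 0) = (l.map x).prod := by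
  induction l with
  | nil =>
    intro S hS
    have : S = ∅ := by
      rw [← Finset.val_eq_zero, ← hS]; rfl
    subst this
    simp [evr]
  | cons a l ih =>
    intro S hS
    have haS : a ∈ S := by
      rw [Finset.mem_def, ← hS]; simp
    have hl : (l : Multiset V) = (S.erase a).val := by
      rw [Finset.erase_val, ← hS]; simp
    have hcard : S.card = (S.erase a).card + 1 := (Finset.card_erase_add_one haS).symm
    rw [hcard]
    simp only [evr]
    rw [Finset.sum_eq_single a]
    · have e : (fun l' : List V => if a :: l' = a :: l then (1 : K) else 0) =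
          fun l' => if l' = l then 1 else 0 := by
        funext l'; simp
      rw [e, ih _ hl]
      simp
    · intro b _ hb
      have e : (fun l' : List V => if b :: l' = a :: l then (1 : K) else 0) = fun _ => 0 := by
        funext l'; simp [hb]
      rw [e, evr_zero, mul_zero]
    · intro h; exact absurd haS h

theorem ev_eq_evr (x : V → Matrix (Fin n) (Fin n) K) (S : Finset V) {f : NC K V}
    (hf : f ∈ MD K S.val) : ev x f = evr x S.card S (fun l => cf l f) := by
  induction hf using Submodule.span_induction with
  | mem f hf =>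
    obtain ⟨l, hl, rfl⟩ := hf
    rw [ev_mon, ← evr_mon x l S hl]
    congr 1
    funext l'
    rw [cf_mon]
  | zero =>
    simp only [map_zero]
    rw [evr_zero]
  | add f f' _ _ h1 h2 =>
    simp only [map_add]
    rw [evr_add, h1, h2]
  | smul r f _ h1 =>
    simp only [map_smul]
    rw [evr_smul, h1]

end Ev

theorem cf_snoc_ne (f : NC K V) (l : List V) {y p : V} (h : y ≠ p) :
    cf (l ++ [y]) (f * mon K [p]) = 0 := by
  induction f using nc_ind with
  | zero => simp
  | add f f' hf hf' => rw [add_mul, map_add, hf, hf', add_zero]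
  | smul r l' =>
    rw [smul_mul_assoc, ← mon_append, map_smul, cf_mon, if_neg, smul_zero]
    intro h'
    have := List.append_inj_right' h' rfl
    exact h (List.cons.inj this).1

/-- coefficients of right-normed brackets -/
theorem cf_rn (y : V) : ∀ (l l' : List V), y ∉ l →
    cf (l' ++ [y]) (rn l (mon K [y]) : NC K V) = if l' = l then 1 else 0 := by
  intro l
  induction l with
  | nil =>
    intro l' _
    change cf (l' ++ [y]) (mon K [y]) = _
    rw [cf_mon]
    simp
  | cons p l ih =>
    intro l' hy
    rw [List.mem_cons, not_or] at hy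
    rw [rn_cons, map_sub, cf_snoc_ne _ _ hy.1, sub_zero]
    cases l' with
    | nil =>
      rw [List.nil_append, cf_cons, if_neg hy.1, if_neg (by simp)]
    | cons b l' =>
      rw [List.cons_append, cf_cons, ih l' hy.2]
      by_cases h : b = p
      · subst h
        rw [if_pos rfl]
        simp
      · rw [if_neg h, if_neg]
        intro h'
        exact h (List.cons.inj h').1

end Pool.Agent.Helper22.LB
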