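import Mathlib
import Pool.Agent.Helper22.LB.Comb2
import Pool.Agent.Helper22.LB.Root

/-!
# From permutations to words
-/

set_option autoImplicit false
set_option linter.unusedSectionVars false

namespace Pool.Agent.Helper22.LB

open Finset Equiv Equiv.Perm

section Seg

variable {m : ℕ} {V : Type*}

/-- the letters in the positions `s, …, s + k - 1` -/
def seg (f : Fin (m + 1) → V) (s k : ℕ) : List V := (List.range' s k).map fun i => f (pos m i)

/-- the word of a permutation -/
def wd (f : Fin (m + 1) → V) : List V := seg f 0 (m + 1)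

theorem seg_length (f : Fin (m + 1) → V) (s k : ℕ) : (seg f s k).length = k := by simp [seg]

theorem seg_succ (f : Fin (m + 1) → V) (s k : ℕ) :
    seg f s (k + 1) = f (pos m s) :: seg f (s + 1) k := by
  rw [seg, seg, List.range'_succ, List.map_cons]

theorem seg_append (f : Fin (m + 1) → V) (s k l : ℕ) :
    seg f s (k + l) = seg f s k ++ seg f (s + k) l := by
  rw [seg, seg, seg, ← List.map_append, List.range'_append_1]

theorem seg_snoc (f : Fin (m + 1) → V) (s k : ℕ) :
    seg f s (k + 1) = seg f s k ++ [f (pos m (s + k))] := by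
  rw [seg_append]; rfl

theorem seg_congr {f f' : Fin (m + 1) → V} {s k : ℕ}
    (h : ∀ j, s ≤ j → j < s + k → f (pos m j) = f' (pos m j)) : seg f s k = seg f' s k := by
  rw [seg, seg]
  refine List.map_congr_left fun j hj => ?_
  rw [List.mem_range'_1] at hj
  exact h j hj.1 hj.2

theorem mem_seg {f : Fin (m + 1) → V} {s k : ℕ} {x : V} :
    x ∈ seg f s k ↔ ∃ j, s ≤ j ∧ j < s + k ∧ f (pos m j) = x := by
  rw [seg, List.mem_map]
  constructor
  · rintro ⟨j, hj, rfl⟩
    rw [List.mem_range'_1] at hj
    exact ⟨j, hj.1, hj.2, rfl⟩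
  · rintro ⟨j, h1, h2, rfl⟩
    exact ⟨j, List.mem_range'_1.mpr ⟨h1, h2⟩, rfl⟩

theorem getElem_seg (f : Fin (m + 1) → V) (s k i : ℕ) (h : i < (seg f s k).length) :
    (seg f s k)[i] = f (pos m (s + i)) := by
  simp only [seg, List.getElem_map, List.getElem_range', one_mul]

theorem wd_cr (f : Fin (m + 1) → V) (p : ℕ) (hp : p ≤ m) :
    wd (f ∘ Fin.cycleRange (pos m p)) = (seg f 1 m).insertIdx p (f (pos m 0)) := by
  apply List.ext_getElem
  · rw [wd, seg_length, List.length_insertIdx, seg_length, if_pos hp]
  · intro i h1 h2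
    rw [List.getElem_insertIdx]
    simp only [wd, getElem_seg, zero_add, Function.comp_apply]
    rw [wd, seg_length] at h1
    have hcr : Fin.cycleRange (pos m p) (pos m i) =
        if i < p then pos m (i + 1) else if i = p then pos m 0 else pos m i := by
      split_ifs with h3 h4
      · rw [Fin.ext_iff, Fin.coe_cycleRange_of_lt, pos_val_of_le (by omega), pos_val_of_le (by omega)]
        rw [Fin.lt_def, pos_val_of_le (by omega), pos_val_of_le (by omega)]; exact h3
      · rw [Fin.cycleRange_of_eq (by rw [h4])]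
        ext; rw [pos_val_of_le (by omega)]; rfl
      · rw [Fin.cycleRange_of_gt]
        rw [Fin.lt_def, pos_val_of_le (by omega), pos_val_of_le (by omega)]; omega
    rw [hcr]
    split_ifs with h3 h4
    · rw [add_comm]
    · rfl
    · rw [show 1 + (i - 1) = i by omega]

theorem wd_split (f : Fin (m + 1) → V) (i r : ℕ) (hi : 2 ≤ i) (h : i + 1 + r = m) :
    wd f = f (pos m 0) :: f (pos m 1) :: (seg f 2 (i - 2) ++ f (pos m i) :: f (pos m (i + 1)) ::
      seg f (i + 2) r) := by
  rw [wd, show m + 1 = ((i - 2) + ((r + 1) + 1)) + 1 + 1 by omega, seg_succ, seg_succ, seg_append,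
    seg_succ, seg_succ]
  congr 4
  · rw [show 0 + 1 + 1 + (i - 2) = i by omega]
  · rw [show 0 + 1 + 1 + (i - 2) = i by omega]

theorem wd_cons (f : Fin (m + 1) → V) : wd f = f (pos m 0) :: seg f 1 m := by
  rw [wd, seg_succ]

theorem insertIdx_append (M T : List V) (p : ℕ) (c : V) (hp : p ≤ M.length) :
    (M ++ T).insertIdx p c = M.insertIdx p c ++ T := by
  induction M generalizing p with
  | nil =>
    have : p = 0 := by simpa using hp
    subst this
    simp
  | cons a M ih =>
    cases p with
    | zero => simp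
    | succ p =>
      rw [List.cons_append, List.insertIdx_succ_cons, List.insertIdx_succ_cons, List.cons_append,
        ih p (by simpa using hp)]

end Seg

section Phi

variable {K : Type*} [Field K] {m n : ℕ}

/-- The data obtained from a multilinear identity: a function on the cyclic words, and for each
letter `b` a Lie polynomial identity `g_b` in the other letters. -/
structure CycData (K : Type*) [Field K] (m n : ℕ) where
  /-- the function on cyclic words -/
  F : Cycle (Fin (m + 1)) → K
  /-- the polynomials -/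
  g : Fin (m + 1) → NC K (Fin (m + 1))
  lie : ∀ b, IsLie (g b)
  deg : ∀ b, g b ∈ MD K ((univ.erase b : Finset (Fin (m + 1))).val)
  root : ∀ b, ∀ l : List (Fin (m + 1)), b ∉ l → F ((b :: l : List (Fin (m + 1))) : Cycle _) = cf l (g b)
  idn : ∀ b, ∀ x : Fin (m + 1) → Matrix (Fin n) (Fin n) K, ev x (g b) = 0

/-- the function on permutations -/
def CycData.phi (D : CycData K m n) (w : Perm (Fin (m + 1))) : K := D.F ((wd w : List _) : Cycle _)

theorem CycData.rotF (D : CycData K m n) (X v : List (Fin (m + 1))) (b : Fin (m + 1))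
    (hb : b ∉ v ++ X) : D.F ((X ++ b :: v : List _) : Cycle _) = cf (v ++ X) (D.g b) := by
  rw [← D.root b _ hb]
  congr 1
  rw [Cycle.coe_eq_coe, ← List.cons_append]
  exact List.isRotated_append

theorem CycData.hrot (D : CycData K m n) (w : Perm (Fin (m + 1))) :
    D.phi (w * finRotate (m + 1)) = D.phi w := by
  rw [CycData.phi, CycData.phi]
  congr 1
  have h1 : wd (w * finRotate (m + 1) : Perm (Fin (m + 1))) = seg w 1 m ++ [w (pos m 0)] := by
    rw [wd, seg_snoc]
    congr 1
    · rw [seg, seg, List.range'_eq_map_range, List.range'_eq_map_range, List.map_map, List.map_map]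
      refine List.map_congr_left fun i _ => ?_
      simp only [Function.comp_apply, Equiv.Perm.mul_apply, finRotate_pos, zero_add]
      rw [add_comm 1 i]
    · rw [zero_add, Equiv.Perm.mul_apply, finRotate_pos]
      have := pos_add m 0
      rw [zero_add] at this
      rw [this]
  rw [h1, wd_cons, Cycle.coe_eq_coe]
  exact List.isRotated_append (l := seg w 1 m) (l' := [w (pos m 0)])

theorem wd_nodup (w : Perm (Fin (m + 1))) : (wd w).Nodup := by
  rw [wd, seg]
  refine List.Nodup.map_on ?_ (List.nodup_range')
  intro x hx y hy h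
  rw [List.mem_range'_1] at hx hy
  have := w.injective h
  rwa [pos_inj (by omega) (by omega)] at this

theorem mem_wd (w : Perm (Fin (m + 1))) (x : Fin (m + 1)) : x ∈ wd w := by
  rw [wd, mem_seg]
  refine ⟨(w⁻¹ x : Fin (m + 1)), by omega, by omega, ?_⟩
  rw [pos_coe]; simp

theorem CycData.hC (D : CycData K m n) (hm : 2 ≤ m) (w : Perm (Fin (m + 1))) :
    ∑ p ∈ range m, D.phi (w * Fin.cycleRange (pos m p)) = 0 := by
  obtain ⟨m', hmdef⟩ : ∃ m', m = m' + 1 := ⟨m - 1, by omega⟩
  set b := w (pos m m) with hb
  have hM : seg w 1 m = seg w 1 m' ++ [b] := by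
    refine (congrArg (seg w 1) hmdef).trans ?_
    rw [seg_snoc, hb, show 1 + m' = m by omega]
  have h0 : b ≠ w (pos m 0) := by
    rw [hb, Ne, w.injective.eq_iff, pos_inj le_rfl (by omega)]; omega
  have hbM : b ∉ seg w 1 m' := by
    rw [mem_seg]
    rintro ⟨j, h1, h2, h3⟩
    have := w.injective h3
    rw [pos_inj (by omega) le_rfl] at this
    omega
  have hne : seg w 1 m' ≠ [] := by
    intro h
    have := congrArg List.length h
    rw [seg_length] at this
    simp at this
    omega
  have key := (D.lie b).insert1 (w (pos m 0)) (seg w 1 m') hne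
  rw [seg_length, ← hmdef] at key
  rw [← key]
  refine Finset.sum_congr rfl fun p hp => ?_
  rw [Finset.mem_range] at hp
  have hw : wd (w * Fin.cycleRange (pos m p) : Perm (Fin (m + 1))) =
      (seg w 1 m').insertIdx p (w (pos m 0)) ++ [b] := by
    have := wd_cr w p (by omega : p ≤ m)
    rw [hM, insertIdx_append _ _ _ _ (by rw [seg_length]; omega)] at this
    exact this
  rw [CycData.phi, hw, D.rotF _ [] b, List.nil_append]
  rw [List.nil_append]
  intro h
  rcases List.eq_or_mem_of_mem_insertIdx h with h | h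
  · exact h0 h
  · exact hbM h

theorem CycData.hS (D : CycData K m n) (hm : 3 ≤ m) (w : Perm (Fin (m + 1))) :
    ∑ l ∈ range m, ∑ k ∈ range l, D.phi (w * swap (pos m 0) (pos m 1) *
      Fin.cycleRange (pos m l) * Fin.cycleRange (pos m k)) = 0 := by
  obtain ⟨m', hmdef⟩ : ∃ m', m = m' + 2 := ⟨m - 2, by omega⟩
  set b := w (pos m m) with hb
  have hM : seg w 2 (m' + 1) = seg w 2 m' ++ [b] := by
    rw [seg_snoc, hb, show 2 + m' = m by omega]
  have h0 : b ≠ w (pos m 0) := by
    rw [hb, Ne, w.injective.eq_iff, pos_inj le_rfl (by omega)]; omega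
  have h1 : b ≠ w (pos m 1) := by
    rw [hb, Ne, w.injective.eq_iff, pos_inj le_rfl (by omega)]; omega
  have hbM : b ∉ seg w 2 m' := by
    rw [mem_seg]
    rintro ⟨j, h1, h2, h3⟩
    have := w.injective h3
    rw [pos_inj (by omega) le_rfl] at this
    omega
  have hne : seg w 2 m' ≠ [] := by
    intro h
    have := congrArg List.length h
    rw [seg_length] at this
    simp at this
    omega
  have key := (D.lie b).insert2 (w (pos m 0)) (w (pos m 1)) (seg w 2 m') hne
  rw [seg_length] at key
  rw [show range m = range (m' + 1 + 1) from by rw [hmdef], Finset.sum_range_succ']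
  simp only [Finset.range_zero, Finset.sum_empty, add_zero]
  rw [← key]
  refine Finset.sum_congr rfl fun j hj => Finset.sum_congr rfl fun k hk => ?_
  rw [Finset.mem_range] at hj hk
  -- the word
  set f : Perm (Fin (m + 1)) := w * swap (pos m 0) (pos m 1) * Fin.cycleRange (pos m (j + 1)) with hf
  have e0 : (w * swap (pos m 0) (pos m 1) : Perm (Fin (m + 1))) (pos m 0) = w (pos m 1) := by
    rw [Equiv.Perm.mul_apply, swap_apply_left]
  have e1 : (w * swap (pos m 0) (pos m 1) : Perm (Fin (m + 1))) (pos m 1) = w (pos m 0) := by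
    rw [Equiv.Perm.mul_apply, swap_apply_right]
  have e2 : seg (w * swap (pos m 0) (pos m 1) : Perm (Fin (m + 1))) 2 (m' + 1) =
      seg w 2 (m' + 1) := by
    refine seg_congr fun i h2 h3 => ?_
    rw [Equiv.Perm.mul_apply, swap_apply_of_ne_of_ne]
    · rw [Ne, pos_inj (by omega) (by omega)]; omega
    · rw [Ne, pos_inj (by omega) (by omega)]; omega
  have e3 : wd f = w (pos m 0) :: (seg w 2 (m' + 1)).insertIdx j (w (pos m 1)) := by
    have h := wd_cr (w * swap (pos m 0) (pos m 1) : Perm (Fin (m + 1))) (j + 1) (by omega : j + 1 ≤ m)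
    rw [e0, show seg (w * swap (pos m 0) (pos m 1) : Perm (Fin (m + 1))) 1 m =
      seg (w * swap (pos m 0) (pos m 1) : Perm (Fin (m + 1))) 1 (m' + 1 + 1) from
      congrArg _ hmdef, seg_succ, e1,
      show 1 + 1 = 2 from rfl, e2, List.insertIdx_succ_cons] at h
    exact h
  have e4 : f (pos m 0) = w (pos m 0) ∧ seg f 1 m = (seg w 2 (m' + 1)).insertIdx j (w (pos m 1)) := by
    rw [wd_cons] at e3
    exact List.cons.inj e3
  have hw : wd (f * Fin.cycleRange (pos m k) : Perm (Fin (m + 1))) =
      ((seg w 2 m').insertIdx j (w (pos m 1))).insertIdx k (w (pos m 0)) ++ [b] := by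
    have := wd_cr f k (by omega : k ≤ m)
    rw [e4.1, e4.2, hM, insertIdx_append _ _ _ _ (by rw [seg_length]; omega),
      insertIdx_append _ _ _ _ (by
        rw [List.length_insertIdx, seg_length, if_pos (by omega)]; omega)] at this
    exact this
  rw [CycData.phi, hw, D.rotF _ [] b, List.nil_append]
  rw [List.nil_append]
  intro h
  rcases List.eq_or_mem_of_mem_insertIdx h with h | h
  · exact h0 h
  · rcases List.eq_or_mem_of_mem_insertIdx h with h | h
    · exact h1 h
    · exact hbM h

end Phi

end Pool.Agent.Helper22.LB
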