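import Mathlib
import Pool.Agent.Helper22.LB.Bridge
import Pool.Agent.Helper49.SL.Reduct4
import Pool.Agent.Helper49.SL.Peel

/-!
# Injectivity: there is no multilinear Lie identity of degree `2 n + 1`
-/

set_option autoImplicit false
set_option linter.unusedSectionVars false

namespace Pool.Agent.Helper22.LB

open Finset Equiv Equiv.Perm Pool.Agent.Helper49.SL

attribute [local instance 100] LieRing.ofAssociativeRing

section PeelInterface

variable {K : Type*} [Field K] {V : Type*} [DecidableEq V]

theorem peel_odd' {n : ℕ} {S : Finset V} {c : List V → K}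
    (h : ∀ x : V → Matrix (Fin n) (Fin n) K, evr x S.card S c = 0)
    (v u : List V) (a b p q : V) (hnd : (v ++ a :: b :: (u ++ [p, q])).Nodup)
    (hS : (v ++ a :: b :: (u ++ [p, q])).toFinset = S) (hv : v.length % 2 = 0)
    (hu : u.length % 2 = 1) (hn : v.length + u.length + 3 = 2 * n) :
    c (v ++ a :: b :: (u ++ [p, q])) + c (v ++ b :: a :: (u ++ [p, q])) +
      c (v ++ a :: b :: (u ++ [q, p])) + c (v ++ b :: a :: (u ++ [q, p])) = 0 :=
  Pool.Agent.Helper49.SL.Peel.peel_odd h v u a b p q hnd hS hv hu hn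

theorem peel_even' {n : ℕ} {S : Finset V} {c : List V → K}
    (h : ∀ x : V → Matrix (Fin n) (Fin n) K, evr x S.card S c = 0)
    (v u : List V) (a b p q y : V) (hnd : (v ++ a :: b :: (u ++ [p, q, y])).Nodup)
    (hS : (v ++ a :: b :: (u ++ [p, q, y])).toFinset = S) (hv : v.length % 2 = 0)
    (hu : u.length % 2 = 0) (hu0 : u ≠ []) (hn : v.length + u.length + 4 = 2 * n) :
    c (v ++ a :: b :: (u ++ [p, q, y])) + c (v ++ b :: a :: (u ++ [p, q, y])) +
      c (v ++ a :: b :: (u ++ [q, p, y])) + c (v ++ b :: a :: (u ++ [q, p, y])) = 0 :=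
  Pool.Agent.Helper49.SL.Peel.peel_even h v u a b p q y hnd hS hv hu hu0 hn

end PeelInterface

variable {K : Type*} [Field K] {m n : ℕ}

theorem CycData.hI (D : CycData K m n) (hm : m = 2 * n + 1) (w : Perm (Fin (m + 1))) (i : ℕ)
    (h3 : 3 ≤ i) (him : i + 2 ≤ m) :
    D.phi w + D.phi (w * tau m 0) + D.phi (w * tau m i) + D.phi (w * tau m 0 * tau m i) = 0 := by
  obtain ⟨r, hr⟩ : ∃ r, i + 1 + (r + 1) = m := ⟨m - i - 2, by omega⟩
  -- the four words
  have t0 : ∀ j, 2 ≤ j → j ≤ m → tau m 0 (pos m j) = pos m j := fun j h1 h2 =>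
    tau_apply_of_ne (by omega) h2 (by omega) (by omega)
  have ti : ∀ j, j ≤ m → j ≠ i → j ≠ i + 1 → tau m i (pos m j) = pos m j := fun j h1 h2 h4 =>
    tau_apply_of_ne (by omega) h1 h2 h4
  have tl0 : tau m 0 (pos m 0) = pos m 1 := tau_apply_left m 0
  have tr0 : tau m 0 (pos m 1) = pos m 0 := tau_apply_right m 0
  have tli : tau m i (pos m i) = pos m (i + 1) := tau_apply_left m i
  have tri : tau m i (pos m (i + 1)) = pos m i := tau_apply_right m i
  set a := w (pos m 0) with ha
  set b := w (pos m 1) with hb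
  set p := w (pos m i) with hp
  set q := w (pos m (i + 1)) with hq
  set U := seg w 2 (i - 2) with hU
  set T := seg w (i + 2) (r + 1) with hT
  have w1 : wd w = a :: b :: (U ++ p :: q :: T) := wd_split w i (r + 1) (by omega) hr
  have w2 : wd (w * tau m 0 : Perm (Fin (m + 1))) = b :: a :: (U ++ p :: q :: T) := by
    rw [wd_split _ i (r + 1) (by omega) hr]
    simp only [Equiv.Perm.mul_apply, tl0, tr0]
    rw [t0 i (by omega) (by omega), t0 (i + 1) (by omega) (by omega)]
    rw [seg_congr (f' := w) (s := 2) (fun j h1 h2 => by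
      rw [Equiv.Perm.mul_apply, t0 j (by omega) (by omega)]),
      seg_congr (f' := w) (s := i + 2) (fun j h1 h2 => by
      rw [Equiv.Perm.mul_apply, t0 j (by omega) (by omega)])]
  have w3 : wd (w * tau m i : Perm (Fin (m + 1))) = a :: b :: (U ++ q :: p :: T) := by
    rw [wd_split _ i (r + 1) (by omega) hr]
    simp only [Equiv.Perm.mul_apply, tli, tri]
    rw [ti 0 (by omega) (by omega) (by omega), ti 1 (by omega) (by omega) (by omega)]
    rw [seg_congr (f' := w) (s := 2) (fun j h1 h2 => by
      rw [Equiv.Perm.mul_apply, ti j (by omega) (by omega) (by omega)]),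
      seg_congr (f' := w) (s := i + 2) (fun j h1 h2 => by
      rw [Equiv.Perm.mul_apply, ti j (by omega) (by omega) (by omega)])]
  have w4 : wd (w * tau m 0 * tau m i : Perm (Fin (m + 1))) = b :: a :: (U ++ q :: p :: T) := by
    rw [wd_split _ i (r + 1) (by omega) hr]
    simp only [Equiv.Perm.mul_apply, tli, tri]
    rw [ti 0 (by omega) (by omega) (by omega), ti 1 (by omega) (by omega) (by omega), tl0, tr0,
      t0 i (by omega) (by omega), t0 (i + 1) (by omega) (by omega)]
    rw [seg_congr (f' := w) (s := 2) (fun j h1 h2 => by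
      rw [Equiv.Perm.mul_apply, Equiv.Perm.mul_apply, ti j (by omega) (by omega) (by omega),
        t0 j (by omega) (by omega)]),
      seg_congr (f' := w) (s := i + 2) (fun j h1 h2 => by
      rw [Equiv.Perm.mul_apply, Equiv.Perm.mul_apply, ti j (by omega) (by omega) (by omega),
        t0 j (by omega) (by omega)])]
  have hnd : (a :: b :: (U ++ p :: q :: T)).Nodup := by rw [← w1]; exact wd_nodup w
  have hall : ∀ x, x ∈ a :: b :: (U ++ p :: q :: T) := by rw [← w1]; exact mem_wd w
  have hUl : U.length = i - 2 := seg_length _ _ _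
  have hTl : T.length = r + 1 := seg_length _ _ _
  rw [CycData.phi, CycData.phi, CycData.phi, CycData.phi, w1, w2, w3, w4]
  clear_value a b p q U T
  clear w1 w2 w3 w4 hU hT ha hb hp hq t0 ti tl0 tr0 tli tri
  rcases Nat.even_or_odd i with hi | hi
  · -- even: the root is the second letter of T
    have hi2 := Nat.even_iff.mp hi
    obtain ⟨y, c, v, hTe⟩ : ∃ y c v, T = y :: c :: v := by
      match T, hTl with
      | y :: c :: v, _ => exact ⟨y, c, v, rfl⟩
      | [], h => simp at h
      | [y], h => simp at h; omega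
    subst hTe
    have hvl : v.length + 1 = r := by simpa using hTl
    have hU0 : U ≠ [] := by
      intro h
      rw [h] at hUl
      simp at hUl
      omega
    have ee : ∀ a b p q : Fin (m + 1), a :: b :: (U ++ p :: q :: y :: c :: v) =
        (a :: b :: (U ++ [p, q, y])) ++ c :: v := by intro a b p q; simp
    rw [ee] at hnd hall
    rw [ee, ee, ee, ee]
    have hperm : ((a :: b :: (U ++ [p, q, y])) ++ c :: v).Perm
        (c :: (v ++ (a :: b :: (U ++ [p, q, y])))) :=
      List.perm_append_comm (l₁ := a :: b :: (U ++ [p, q, y])) (l₂ := c :: v)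
    have hnd' := hperm.nodup_iff.mp hnd
    rw [List.nodup_cons] at hnd'
    have hc := hnd'.1
    have hSS : (v ++ a :: b :: (U ++ [p, q, y])).toFinset = univ.erase c := by
      ext x
      rw [List.mem_toFinset, Finset.mem_erase]
      constructor
      · intro hx
        exact ⟨fun h => hc (h ▸ hx), Finset.mem_univ _⟩
      · rintro ⟨hx, -⟩
        have := hperm.mem_iff.mp (hall x)
        exact (List.mem_cons.mp this).resolve_left hx
    have key := peel_even' (n := n) (S := univ.erase c) (c := fun l => cf l (D.g c))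
      (fun x => by rw [← ev_eq_evr x _ (D.deg c)]; exact D.idn c x) v U a b p q y hnd'.2 hSS
      (by omega) (by omega) hU0 (by omega)
    have m2 : c ∉ v ++ (b :: a :: (U ++ [p, q, y])) := fun h =>
      hc (((List.Perm.swap a b _).append_left v).mem_iff.mp h)
    have m3 : c ∉ v ++ (a :: b :: (U ++ [q, p, y])) := fun h =>
      hc (((((List.Perm.swap p q [y]).append_left U).cons b).cons a |>.append_left v).mem_iff.mp h)
    have m4 : c ∉ v ++ (b :: a :: (U ++ [q, p, y])) := fun h =>
      m3 (((List.Perm.swap a b _).append_left v).mem_iff.mp h)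
    rw [D.rotF _ _ _ hc, D.rotF _ _ _ m2, D.rotF _ _ _ m3, D.rotF _ _ _ m4]
    exact key
  · -- odd: the root is the first letter of T
    have hi2 := Nat.odd_iff.mp hi
    obtain ⟨c, v, hTe⟩ : ∃ c v, T = c :: v := by
      match T, hTl with
      | c :: v, _ => exact ⟨c, v, rfl⟩
      | [], h => simp at h
    subst hTe
    have hvl : v.length = r := by simpa using hTl
    have ee : ∀ a b p q : Fin (m + 1), a :: b :: (U ++ p :: q :: c :: v) =
        (a :: b :: (U ++ [p, q])) ++ c :: v := by intro a b p q; simp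
    rw [ee] at hnd hall
    rw [ee, ee, ee, ee]
    have hperm : ((a :: b :: (U ++ [p, q])) ++ c :: v).Perm
        (c :: (v ++ (a :: b :: (U ++ [p, q])))) :=
      List.perm_append_comm (l₁ := a :: b :: (U ++ [p, q])) (l₂ := c :: v)
    have hnd' := hperm.nodup_iff.mp hnd
    rw [List.nodup_cons] at hnd'
    have hc := hnd'.1
    have hSS : (v ++ a :: b :: (U ++ [p, q])).toFinset = univ.erase c := by
      ext x
      rw [List.mem_toFinset, Finset.mem_erase]
      constructor
      · intro hx
        exact ⟨fun h => hc (h ▸ hx), Finset.mem_univ _⟩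
      · rintro ⟨hx, -⟩
        have := hperm.mem_iff.mp (hall x)
        exact (List.mem_cons.mp this).resolve_left hx
    have key := peel_odd' (n := n) (S := univ.erase c) (c := fun l => cf l (D.g c))
      (fun x => by rw [← ev_eq_evr x _ (D.deg c)]; exact D.idn c x) v U a b p q hnd'.2 hSS
      (by omega) (by omega) (by omega)
    have m2 : c ∉ v ++ (b :: a :: (U ++ [p, q])) := fun h =>
      hc (((List.Perm.swap a b _).append_left v).mem_iff.mp h)
    have m3 : c ∉ v ++ (a :: b :: (U ++ [q, p])) := fun h =>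
      hc (((((List.Perm.swap p q []).append_left U).cons b).cons a |>.append_left v).mem_iff.mp h)
    have m4 : c ∉ v ++ (b :: a :: (U ++ [q, p])) := fun h =>
      m3 (((List.Perm.swap a b _).append_left v).mem_iff.mp h)
    rw [D.rotF _ _ _ hc, D.rotF _ _ _ m2, D.rotF _ _ _ m3, D.rotF _ _ _ m4]
    exact key

/-- All values of `phi` vanish. -/
theorem CycData.phi_zero [CharZero K] (hn : 3 ≤ n) (hm : m = 2 * n + 1) (D : CycData K m n)
    (w : Perm (Fin (m + 1))) : D.phi w = 0 :=
  Pool.Agent.Helper22.LB.phi_zero n hn hm D.phi D.hrot (fun w i h1 h2 => D.hI hm w i h1 h2)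
    (fun w => D.hC (by omega) w) (fun w => D.hS (by omega) w) w

theorem ev_rn (x : Fin (m + 1) → Matrix (Fin n) (Fin n) K) (l : List (Fin (m + 1))) (y : Fin (m + 1)) :
    ev x (rn l (mon K [y])) = (l.map x).foldr (fun p q => p * q - q * p) (x y) := by
  induction l with
  | nil => exact ev_letter x y
  | cons p l ih =>
    rw [rn_cons, map_sub, map_mul, map_mul, ih, ev_letter]
    rfl

/-- The polynomial attached to a function on permutations. -/
noncomputable def gpoly (k : ℕ) (a : Perm (Fin k) → K) : NC K (Fin (k + 1 + 1)) :=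
  ∑ τ : Perm (Fin k), a τ • rn (List.ofFn fun i => pos (k + 1) (τ i)) (mon K [pos (k + 1) k])

theorem full_multiset (k : ℕ) (τ : Perm (Fin k)) :
    (([pos (k + 1) (k + 1)] : List (Fin (k + 1 + 1))) : Multiset _) +
      (((List.ofFn fun i => pos (k + 1) (τ i)) ++ [pos (k + 1) k] : List _) : Multiset _) =
      (univ : Finset (Fin (k + 1 + 1))).val := by
  refine (Multiset.Nodup.ext ?_ (Finset.nodup _)).mpr ?_
  · change (([pos (k + 1) (k + 1)] ++ ((List.ofFn fun i => pos (k + 1) (τ i)) ++
      [pos (k + 1) k]) : List _)).Nodup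
    rw [List.nodup_append]
    refine ⟨List.nodup_singleton _, ?_, ?_⟩
    · rw [List.nodup_append]
      refine ⟨?_, List.nodup_singleton _, ?_⟩
      · rw [List.nodup_ofFn]
        intro i j hij
        have := (pos_inj (by omega) (by omega)).mp hij
        exact τ.injective (Fin.ext this)
      · intro x hx y hy
        rw [List.mem_ofFn] at hx
        obtain ⟨i, rfl⟩ := hx
        rw [List.mem_singleton] at hy
        subst hy
        rw [Ne, pos_inj (by omega) (by omega)]
        omega
    · intro x hx y hy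
      rw [List.mem_singleton] at hx
      subst hx
      rw [List.mem_append, List.mem_ofFn, List.mem_singleton] at hy
      rcases hy with ⟨i, rfl⟩ | rfl
      · rw [Ne, pos_inj (by omega) (by omega)]; omega
      · rw [Ne, pos_inj (by omega) (by omega)]; omega
  · intro x
    refine ⟨fun _ => Finset.mem_val.mpr (Finset.mem_univ x), fun _ => ?_⟩
    change x ∈ (([pos (k + 1) (k + 1)] ++ ((List.ofFn fun i => pos (k + 1) (τ i)) ++
      [pos (k + 1) k]) : List _))
    rw [List.mem_append, List.mem_append, List.mem_singleton, List.mem_singleton, List.mem_ofFn]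
    by_cases h1 : (x : ℕ) = k + 1
    · left; rw [← pos_coe x, h1]
    by_cases h2 : (x : ℕ) = k
    · right; right; rw [← pos_coe x, h2]
    · right; left
      refine ⟨τ⁻¹ ⟨x, by omega⟩, ?_⟩
      have e : τ (τ⁻¹ ⟨x, by omega⟩) = ⟨x, by omega⟩ := by simp
      rw [e]
      exact pos_coe x

theorem exists_cycData (n : ℕ) (k : ℕ) (a : Perm (Fin k) → K)
    (h : ∀ x : Fin (k + 1 + 1) → Matrix (Fin n) (Fin n) K, ev x (gpoly k a) = 0) :
    ∃ D : CycData K (k + 1) n, ∀ l : List (Fin (k + 1 + 1)), pos (k + 1) (k + 1) ∉ l →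
      D.F ((pos (k + 1) (k + 1) :: l : List _) : Cycle _) = cf l (gpoly k a) := by
  set z := pos (k + 1) (k + 1) with hz
  have hdeg : gpoly k a ∈ MD K ((univ.erase z : Finset (Fin (k + 1 + 1))).val) := by
    rw [gpoly]
    refine Submodule.sum_mem _ fun τ _ => Submodule.smul_mem _ _ ?_
    have := rn_MD (K := K) (List.ofFn fun i => pos (k + 1) (τ i)) (pos (k + 1) k)
    have e : (((List.ofFn fun i => pos (k + 1) (τ i)) ++ [pos (k + 1) k] : List _) : Multiset _) =
        ((univ.erase z : Finset (Fin (k + 1 + 1))).val) := by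
      rw [Finset.erase_val, ← full_multiset k τ, ← hz,
        Multiset.erase_add_left_pos _ (by simp)]
      simp
    rwa [e] at this
  have hlie : IsLie (gpoly k a) := by
    rw [gpoly]
    refine Finset.sum_induction _ IsLie (fun _ _ => IsLie.add) IsLie.zero fun τ _ => ?_
    exact IsLie.smul _ (rn_lie _ _)
  have hex : ∀ b : Fin (k + 1 + 1), ∃ g : NC K (Fin (k + 1 + 1)), IsLie g ∧
      g ∈ MD K ((univ.erase b : Finset (Fin (k + 1 + 1))).val) ∧
      mon K [z] * gpoly k a - mon K [b] * g ∈ Com K (Fin (k + 1 + 1)) := by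
    intro b
    by_cases hb : b = z
    · subst hb
      exact ⟨gpoly k a, hlie, hdeg, by rw [sub_self]; exact Submodule.zero_mem _⟩
    · have h1 : ∀ τ : Perm (Fin k), ∃ g : NC K (Fin (k + 1 + 1)), IsLie g ∧
        g ∈ MD K ((univ.erase b : Finset (Fin (k + 1 + 1))).val) ∧
        mon K [z] * rn (List.ofFn fun i => pos (k + 1) (τ i)) (mon K [pos (k + 1) k]) -
          mon K [b] * g ∈ Com K (Fin (k + 1 + 1)) := by
        intro τ
        have hmem : b ∈ (List.ofFn fun i => pos (k + 1) (τ i)) ++ [pos (k + 1) k] := by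
          have h2 : b ∈ (univ : Finset (Fin (k + 1 + 1))).val := Finset.mem_univ b
          rw [← full_multiset k τ, Multiset.mem_add] at h2
          rcases h2 with h2 | h2
          · exfalso
            apply hb
            simpa using h2
          · exact h2
        obtain ⟨g, g1, g2, g3⟩ := root_change (K := K) (List.ofFn fun i => pos (k + 1) (τ i))
          (pos (k + 1) k) (mon K [z]) (([z] : List _) : Multiset _) (IsLie.of z)
          (mon_mem_MD rfl) b hmem
        rw [hz, full_multiset k τ, ← Finset.erase_val] at g2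
        exact ⟨g, g1, g2, g3⟩
      choose g g1 g2 g3 using h1
      refine ⟨∑ τ, a τ • g τ, ?_, ?_, ?_⟩
      · exact Finset.sum_induction _ IsLie (fun _ _ => IsLie.add) IsLie.zero fun τ _ =>
          IsLie.smul _ (g1 τ)
      · exact Submodule.sum_mem _ fun τ _ => Submodule.smul_mem _ _ (g2 τ)
      · rw [gpoly, Finset.mul_sum, Finset.mul_sum, ← Finset.sum_sub_distrib]
        refine Submodule.sum_mem _ fun τ _ => ?_
        rw [mul_smul_comm, mul_smul_comm, ← smul_sub]
        exact Submodule.smul_mem _ _ (g3 τ)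
  choose g g1 g2 g3 using hex
  have hroot : ∀ b, ∀ l : List (Fin (k + 1 + 1)), b ∉ l →
      cyc K _ (mon K [z] * gpoly k a) ((b :: l : List _) : Cycle _) = cf l (g b) := by
    intro b l hb
    have h1 := cyc_Com (g3 b)
    rw [map_sub, sub_eq_zero] at h1
    rw [h1]
    exact cyc_root (g2 b) b l hb
  refine ⟨{ F := fun c => cyc K _ (mon K [z] * gpoly k a) c, g := g, lie := g1, deg := g2,
            root := hroot, idn := fun b x => ?_ }, ?_⟩
  · refine ev_root (g := gpoly k a) b z ?_ (g2 b) (g3 b) h x
    rw [← Finset.mem_def]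
    exact Finset.notMem_erase _ _
  · intro l hl
    exact cyc_root hdeg z l hl

/-- **Main theorem**: the Lie algebra of `n × n` matrices has no multilinear Lie identity of degree
`2 n + 1`. -/
theorem inj_main [CharZero K] (n : ℕ) (hn : 3 ≤ n) : Inj K (Matrix (Fin n) (Fin n) K) (2 * n) := by
  intro a ha
  have hid : ∀ x : Fin (2 * n + 1 + 1) → Matrix (Fin n) (Fin n) K, ev x (gpoly (2 * n) a) = 0 := by
    intro x
    rw [gpoly, map_sum, ← ha (fun i => x (pos (2 * n + 1) i)) (x (pos (2 * n + 1) (2 * n)))]
    refine Finset.sum_congr rfl fun τ _ => ?_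
    rw [map_smul, ev_rn, adp_foldr, List.map_ofFn]
    rfl
  obtain ⟨D, hD⟩ := exists_cycData n (2 * n) a hid
  funext τ
  -- the word of `τ`
  set z := pos (2 * n + 1) (2 * n + 1) with hz
  set y := pos (2 * n + 1) (2 * n) with hy
  set l := List.ofFn fun i => pos (2 * n + 1) (τ i) with hl
  have hfull := full_multiset (2 * n) τ
  rw [← hz, ← hy, ← hl] at hfull
  have hnd : (z :: (l ++ [y])).Nodup := by
    have := Finset.nodup (univ : Finset (Fin (2 * n + 1 + 1)))
    rw [← hfull] at this
    exact this
  have hlen : (z :: (l ++ [y])).length = 2 * n + 1 + 1 := by simp [hl]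
  obtain ⟨w, hw⟩ : ∃ w : Perm (Fin (2 * n + 1 + 1)), wd w = z :: (l ++ [y]) := by
    set L := z :: (l ++ [y]) with hL
    have hinj : Function.Injective (fun i : Fin (2 * n + 1 + 1) => L.get (i.cast hlen.symm)) := by
      intro i j hij
      have := List.nodup_iff_injective_get.mp hnd hij
      simpa [Fin.ext_iff] using this
    refine ⟨Equiv.ofBijective _ (Finite.injective_iff_bijective.mp hinj), ?_⟩
    apply List.ext_getElem
    · rw [wd, seg_length, hlen]
    · intro i h1 h2
      simp only [wd, getElem_seg, zero_add, Equiv.ofBijective_apply, List.get_eq_getElem,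
        Fin.val_cast]
      congr 1
      rw [wd, seg_length] at h1
      exact pos_val_of_le (by omega)
  have h0 := D.phi_zero hn rfl w
  rw [CycData.phi, hw, hD _ (List.nodup_cons.mp hnd).1, gpoly, map_sum] at h0
  rw [Finset.sum_eq_single τ] at h0
  · have hyl : y ∉ l := by
      have h1 := (List.nodup_cons.mp hnd).2
      rw [List.nodup_append] at h1
      intro h2
      exact h1.2.2 y h2 y (List.mem_singleton_self _) rfl
    rw [map_smul, cf_rn y _ _ hyl, if_pos rfl, smul_eq_mul, mul_one] at h0
    exact h0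
  · intro σ _ hσ
    rw [map_smul, cf_rn, if_neg, smul_zero]
    · intro h1
      apply hσ
      have h2 := List.ofFn_injective h1
      ext i
      have h3 := congrFun h2 i
      have := (pos_inj (by omega) (by omega)).mp h3
      exact this.symm
    · intro h1
      rw [List.mem_ofFn] at h1
      obtain ⟨i, hi⟩ := h1
      rw [hy, pos_inj (by omega) (by omega)] at hi
      omega
  · intro h1; exact absurd (Finset.mem_univ _) h1

end Pool.Agent.Helper22.LB
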